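import Mathlib

set_option autoImplicit false

namespace Pool.Agent.Lib.MP_8dd27d_al.Closed

open Finset

theorem gen_count {F K Ω ι : Type*} [Field F] [Field K] [Algebra F K] [Fintype Ω] [Fintype ι]
    (a : Ω → K) (ha : AlgebraicIndependent F a) (S : Finset K) (ω0 : ι → Ω)
    (hinj : Function.Injective ω0)
    (h : ∀ i, a (ω0 i) ∈ IntermediateField.adjoin F ((S : Set K) ∪ a '' (Set.range ω0)ᶜ)) :
    Fintype.card ι ≤ S.card := by
  classical
  let T : Finset K := S ∪ (univ \ univ.image ω0).image a
  have hT : (T : Set K) = (S : Set K) ∪ a '' (Set.range ω0)ᶜ := by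
    ext z
    simp [T]
  have hI : (AlgebraicIndependent.matroid F K).Indep (Set.range a) :=
    AlgebraicIndependent.matroid_indep_iff.mpr ha.to_subtype_range
  have hsub : Set.range a ⊆ (AlgebraicIndependent.matroid F K).closure (T : Set K) := by
    rintro _ ⟨ω, rfl⟩
    have h1 : a ω ∈ IntermediateField.adjoin F (T : Set K) := by
      rw [hT]
      by_cases hω : ω ∈ Set.range ω0
      · obtain ⟨i, rfl⟩ := hω
        exact h i
      · exact IntermediateField.subset_adjoin F _ (Or.inr ⟨ω, hω, rfl⟩)
    rw [AlgebraicIndependent.matroid_closure_eq, SetLike.mem_coe, Subalgebra.mem_algebraicClosure,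
      ← IntermediateField.isAlgebraic_adjoin_iff]
    exact isAlgebraic_algebraMap (⟨a ω, h1⟩ : IntermediateField.adjoin F (T : Set K))
  have h2 := hI.encard_le_eRk_of_subset hsub
  rw [Matroid.eRk_closure_eq] at h2
  have h3 := h2.trans (Matroid.eRk_le_encard _ _)
  have h4 : Set.range a = ((univ.image a : Finset K) : Set K) := by simp
  rw [h4, Set.encard_coe_eq_coe_finsetCard, Set.encard_coe_eq_coe_finsetCard, Nat.cast_le,
    card_image_of_injective _ ha.injective, card_univ] at h3
  have h5 : T.card ≤ S.card + (Fintype.card Ω - Fintype.card ι) := by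
    refine (card_union_le _ _).trans (Nat.add_le_add_left (card_image_le.trans ?_) _)
    rw [card_sdiff_of_subset (subset_univ _), card_image_of_injective _ hinj, card_univ, card_univ]
  have h6 : Fintype.card ι ≤ Fintype.card Ω := Fintype.card_le_of_injective _ hinj
  omega

theorem key {F K L J ι : Type*} [Field F] [Field K] [Algebra F K] [Fintype L] [Fintype J]
    [Fintype ι] (a : Sym2 L × J → K) (ha : AlgebraicIndependent F a) (B : L → L → J → K)
    (hB : ∀ l l' j, B l l' j = 0 ∨ B l l' j = 1 ∨ B l l' j = a (s(l, l'), j)) (S : Finset K)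
    (x y : ι → L → K) (q : ι → J → K)
    (hx : ∀ i l, x i l ∈ IntermediateField.adjoin F (S : Set K))
    (hy : ∀ i l, y i l ∈ IntermediateField.adjoin F (S : Set K))
    (hq : ∀ i j, q i j ∈ IntermediateField.adjoin F (S : Set K))
    (h0 : ∀ i, ∑ j, q i j * ∑ l, ∑ l', x i l * y i l' * B l l' j = 0)
    (lam mu : ι → L) (jj : ι → J)
    (hgen : ∀ i, B (lam i) (mu i) (jj i) = a (s(lam i, mu i), jj i))
    (hd : ∀ i, x i (lam i) * y i (mu i) * q i (jj i) ≠ 0)
    (ho : ∀ i k, i ≠ k → x i (lam k) * y i (mu k) * q i (jj k) = 0)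
    (hs : ∀ i k, x i (mu k) * y i (lam k) * q i (jj k) = 0) :
    Fintype.card ι ≤ S.card := by
  classical
  let ω0 : ι → Sym2 L × J := fun i => (s(lam i, mu i), jj i)
  have hinj : Function.Injective ω0 := by
    intro i k hik
    by_contra hne
    obtain ⟨h1, h2⟩ := Prod.mk.inj hik
    rcases Sym2.eq_iff.mp h1 with ⟨h3, h4⟩ | ⟨h3, h4⟩
    · exact hd i (by rw [h3, h4, h2]; exact ho i k hne)
    · exact hd i (by rw [h3, h4, h2]; exact hs i k)
  refine gen_count a ha S ω0 hinj (fun i => ?_)
  set K1 := IntermediateField.adjoin F ((S : Set K) ∪ a '' (Set.range ω0)ᶜ)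
  have hle : IntermediateField.adjoin F (S : Set K) ≤ K1 :=
    IntermediateField.adjoin.mono F _ _ Set.subset_union_left
  let c : J × L × L → K := fun t => x i t.2.1 * y i t.2.2 * q i t.1
  have hc : ∀ t, c t ∈ K1 := fun t =>
    mul_mem (mul_mem (hle (hx i _)) (hle (hy i _))) (hle (hq i _))
  have h1 : ∑ t : J × L × L, c t * B t.2.1 t.2.2 t.1 = 0 := by
    rw [← h0 i, Fintype.sum_prod_type]
    refine sum_congr rfl (fun j _ => ?_)
    rw [Fintype.sum_prod_type, mul_sum]
    refine sum_congr rfl (fun l _ => ?_)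
    rw [mul_sum]
    refine sum_congr rfl (fun l' _ => ?_)
    simp only [c]
    ring
  rw [← add_sum_erase _ _ (mem_univ (jj i, lam i, mu i))] at h1
  have h2 : ∑ t ∈ univ.erase (jj i, lam i, mu i), c t * B t.2.1 t.2.2 t.1 ∈ K1 := by
    refine sum_mem (fun t ht => ?_)
    obtain ⟨j, l, l'⟩ := t
    have hne := ne_of_mem_erase ht
    rcases hB l l' j with h | h | h
    · simp only [h, mul_zero]; exact zero_mem _
    · simp only [h, mul_one]; exact hc _
    · by_cases hω : (s(l, l'), j) ∈ Set.range ω0
      · obtain ⟨k, hk⟩ := hω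
        obtain ⟨h3, h4⟩ := Prod.mk.inj hk
        have h5 : c (j, l, l') = 0 := by
          rcases Sym2.eq_iff.mp h3 with ⟨h5, h6⟩ | ⟨h5, h6⟩
          · subst h4 h5 h6
            exact ho i k (by rintro rfl; exact hne rfl)
          · subst h4 h5 h6
            exact hs i k
        rw [h5, zero_mul]; exact zero_mem _
      · refine mul_mem (hc _) ?_
        simp only [h]
        exact IntermediateField.subset_adjoin F _ (Or.inr ⟨_, hω, rfl⟩)
  have h3 : a (ω0 i) = (c (jj i, lam i, mu i))⁻¹ *
      -(∑ t ∈ univ.erase (jj i, lam i, mu i), c t * B t.2.1 t.2.2 t.1) := by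
    have h4 : c (jj i, lam i, mu i) ≠ 0 := hd i
    rw [eq_inv_mul_iff_mul_eq₀ h4, eq_neg_iff_add_eq_zero, ← h1]
    simp only [hgen, ω0]
  rw [h3]
  exact mul_mem (inv_mem (hc _)) (neg_mem h2)

/-- vectors vanishing on a set of coordinates -/
def van (K : Type*) {L : Type*} [Field K] (P : L → Prop) : Submodule K (L → K) where
  carrier := {y | ∀ l, P l → y l = 0}
  add_mem' := by
    intro y z hy hz l hl
    simp [hy l hl, hz l hl]
  zero_mem' := fun _ _ => rfl
  smul_mem' := by
    intro c y hy l hl
    simp [hy l hl]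

theorem mem_van {K L : Type*} [Field K] {P : L → Prop} {y : L → K} :
    y ∈ van K P ↔ ∀ l, P l → y l = 0 := Iff.rfl

theorem echelon {K L : Type*} [Field K] [Fintype L] (P : L → Prop) (k : ℕ) :
    ∀ Y : Submodule K (L → K),
      k + Module.finrank K (Y ⊓ van K P : Submodule K (L → K)) ≤ Module.finrank K Y →
      ∃ (p : Fin k → L) (y : Fin k → L → K), (∀ i, P (p i)) ∧ (∀ i, y i ∈ Y) ∧
        (∀ i, y i (p i) = 1) ∧ ∀ i i', i ≠ i' → y i (p i') = 0 := by
  induction k with
  | zero => exact fun Y _ => ⟨Fin.elim0, Fin.elim0, fun i => i.elim0, fun i => i.elim0,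
      fun i => i.elim0, fun i => i.elim0⟩
  | succ k ih =>
    intro Y hY
    have h1 : ¬ Y ≤ van K P := by
      intro h
      rw [inf_eq_left.mpr h] at hY
      omega
    obtain ⟨y0, hy0, hy1⟩ := Set.not_subset.mp h1
    have hy2 : ∃ l, P l ∧ y0 l ≠ 0 := by
      by_contra h
      push Not at h
      exact hy1 h
    obtain ⟨l0, hl0, hl1⟩ := hy2
    let Y' : Submodule K (L → K) := Y ⊓ LinearMap.ker (LinearMap.proj l0 : (L → K) →ₗ[K] K)
    have h2 : Module.finrank K Y ≤ Module.finrank K Y' + 1 := by
      have h3 := LinearMap.finrank_range_add_finrank_ker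
        ((LinearMap.proj l0 : (L → K) →ₗ[K] K).comp Y.subtype)
      have h4 := Submodule.finrank_le
        (LinearMap.range ((LinearMap.proj l0 : (L → K) →ₗ[K] K).comp Y.subtype))
      rw [Module.finrank_self] at h4
      have h5 : Module.finrank K (LinearMap.ker
          ((LinearMap.proj l0 : (L → K) →ₗ[K] K).comp Y.subtype)) = Module.finrank K Y' := by
        rw [← Submodule.finrank_map_subtype_eq, LinearMap.ker_comp, Submodule.map_comap_subtype]
      omega
    have h3 : Module.finrank K (Y' ⊓ van K P : Submodule K (L → K)) ≤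
        Module.finrank K (Y ⊓ van K P : Submodule K (L → K)) :=
      Submodule.finrank_mono (inf_le_inf_right _ inf_le_left)
    obtain ⟨p, y, hp, hy, hd, ho⟩ := ih Y' (by omega)
    have hy3 : ∀ i, y i l0 = 0 := fun i => (hy i).2
    let z : L → K := (y0 l0)⁻¹ • (y0 - ∑ i, y0 (p i) • y i)
    refine ⟨Fin.cons l0 p, Fin.cons z y, ?_, ?_, ?_, ?_⟩
    · intro i
      refine Fin.cases ?_ (fun i => ?_) i
      · exact hl0
      · exact hp i
    · intro i
      refine Fin.cases ?_ (fun i => ?_) i
      · exact Y.smul_mem _ (Y.sub_mem hy0 (Y.sum_mem (fun i _ => Y.smul_mem _ (hy i).1)))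
      · exact (hy i).1
    · intro i
      refine Fin.cases ?_ (fun i => ?_) i
      · simp [z, hy3, hl1]
      · exact hd i
    · intro i i'
      refine Fin.cases ?_ (fun i => ?_) i <;> refine Fin.cases ?_ (fun i' => ?_) i'
      · exact fun h => absurd rfl h
      · intro _
        simp only [Fin.cons_zero, Fin.cons_succ, z, Pi.smul_apply, Pi.sub_apply, Finset.sum_apply,
          smul_eq_mul]
        rw [sum_eq_single i' (fun b _ hb => by rw [ho b i' hb, mul_zero]) (by simp), hd]
        simp
      · intro _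
        exact hy3 i
      · intro h
        exact ho i i' (fun h' => h (by rw [h']))

end Pool.Agent.Lib.MP_8dd27d_al.Closed
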