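import Pool.Agent.Lib.MP_8dd27d_al.Closed.Key

set_option autoImplicit false

namespace Pool.Agent.Lib.MP_8dd27d_al.Closed

open Finset

/-- index set of the basis of `V`: blocks `T1, P1, T2, P2, T3, R` -/
abbrev LL (sz : Fin 6 → ℕ) := Σ b : Fin 6, Fin (sz b)

def src : Fin 6 → Fin 6 := ![1, 2, 3, 3, 4, 5]

/-- index set of the basis of `W` -/
abbrev JJ (sz : Fin 6 → ℕ) := Σ c : Fin 6, Fin (sz (src c))

def del {sz : Fin 6 → ℕ} (j : JJ sz) : LL sz := ⟨src j.1, j.2⟩

def thr : Fin 6 → ℕ := ![0, 0, 0, 2, 2, 4]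

def gen (b b' c : Fin 6) : Prop :=
  (4 ≤ b.val ∧ thr c ≤ b'.val) ∨ (4 ≤ b'.val ∧ thr c ≤ b.val) ∨
    (c = 0 ∧ ((b = 0 ∧ b' = 2) ∨ (b = 2 ∧ b' = 0)))

instance (b b' c : Fin 6) : Decidable (gen b b' c) := by unfold gen; infer_instance

theorem gen_symm : ∀ b b' c : Fin 6, gen b b' c ↔ gen b' b c := by decide

variable {K : Type*} [Field K] {sz : Fin 6 → ℕ}

def ten (a : Sym2 (LL sz) × JJ sz → K) (l l' : LL sz) (j : JJ sz) : K :=
  if l = l' then (if del j = l then 1 else 0) else if gen l.1 l'.1 j.1 then a (s(l, l'), j) else 0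

theorem ten_symm (a : Sym2 (LL sz) × JJ sz → K) (l l' : LL sz) (j : JJ sz) :
    ten a l l' j = ten a l' l j := by
  unfold ten
  by_cases h : l = l'
  · subst h; rfl
  · rw [if_neg h, if_neg (Ne.symm h), Sym2.eq_swap]
    exact if_congr (gen_symm _ _ _) rfl rfl

theorem ten_cases (a : Sym2 (LL sz) × JJ sz → K) (l l' : LL sz) (j : JJ sz) :
    ten a l l' j = 0 ∨ ten a l l' j = 1 ∨ ten a l l' j = a (s(l, l'), j) := by
  unfold ten
  split_ifs <;> simp

theorem ten_gen (a : Sym2 (LL sz) × JJ sz → K) {l l' : LL sz} {j : JJ sz} (h : l ≠ l')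
    (hg : gen l.1 l'.1 j.1) : ten a l l' j = a (s(l, l'), j) := by
  unfold ten
  rw [if_neg h, if_pos hg]

theorem ten_rad (a : Sym2 (LL sz) × JJ sz → K) {l : LL sz} (l' : LL sz) {j : JJ sz}
    (h : l.1.val < thr j.1) : ten a l l' j = 0 := by
  have h1 : ∀ b b' c : Fin 6, b.val < thr c → ¬ gen b b' c ∧ src c ≠ b := by decide
  unfold ten
  split_ifs with h2 h3 h4
  · exact absurd (congrArg Sigma.fst h3) (h1 _ l'.1 _ h).2
  · rfl
  · exact absurd h4 (h1 _ _ _ h).1
  · rfl

def mul (a : Sym2 (LL sz) × JJ sz → K) (x y : LL sz → K) : JJ sz → K :=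
  fun j => ∑ l, ∑ l', x l * y l' * ten a l l' j

theorem mul_comm' (a : Sym2 (LL sz) × JJ sz → K) (x y : LL sz → K) : mul a x y = mul a y x := by
  funext j
  unfold mul
  rw [sum_comm]
  refine sum_congr rfl (fun l _ => sum_congr rfl (fun l' _ => ?_))
  rw [ten_symm, mul_comm (x l')]

def mulB (a : Sym2 (LL sz) × JJ sz → K) : (LL sz → K) →ₗ[K] (LL sz → K) →ₗ[K] (JJ sz → K) :=
  LinearMap.mk₂ K (mul a)
    (fun x x' y => by funext j; simp only [mul, Pi.add_apply, add_mul, sum_add_distrib])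
    (fun c x y => by funext j; simp only [mul, Pi.smul_apply, smul_eq_mul, mul_sum, mul_assoc])
    (fun x y y' => by
      funext j; simp only [mul, Pi.add_apply, add_mul, mul_add, sum_add_distrib])
    (fun c x y => by
      funext j; simp only [mul, Pi.smul_apply, smul_eq_mul, mul_sum, mul_assoc, mul_left_comm])

theorem mulB_apply (a : Sym2 (LL sz) × JJ sz → K) (x y : LL sz → K) : mulB a x y = mul a x y :=
  rfl

theorem card_blk (f : Fin 6 → ℕ) (P : Fin 6 → Prop) [DecidablePred P] :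
    (univ.filter (fun j : Σ c : Fin 6, Fin (f c) => P j.1)).card =
      ∑ c, if P c then f c else 0 := by
  rw [card_filter, Fintype.sum_sigma]
  refine sum_congr rfl (fun c _ => ?_)
  split_ifs with h <;> simp [h]

theorem single_sum {J : Type*} [Fintype J] [DecidableEq J] (j : J) (f : J → K) :
    ∑ j', (Pi.single j (1 : K) : J → K) j' * f j' = f j := by
  rw [sum_eq_single j (fun b _ hb => by rw [Pi.single_eq_of_ne hb, zero_mul]) (by simp)]
  simp

theorem single_mem {F J : Type*} [Field F] [Algebra F K] [DecidableEq J]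
    (E : IntermediateField F K) (j j' : J) : (Pi.single j (1 : K) : J → K) j' ∈ E := by
  rw [Pi.single_apply]
  split_ifs
  · exact one_mem _
  · exact zero_mem _

/-- no zero pairs between the blocks `b1` and `b2`, seen in the blocks `PJ` of `W` -/
def NZ (a : Sym2 (LL sz) × JJ sz → K) (b1 b2 : Fin 6) (PJ : Fin 6 → Prop) : Prop :=
  ∀ x y : LL sz → K, (∀ l, l.1 ≠ b1 → x l = 0) → x ≠ 0 → (∀ l, l.1 ≠ b2 → y l = 0) → y ≠ 0 →
    ∃ j : JJ sz, PJ j.1 ∧ mul a x y j ≠ 0

section generic

variable {F : Type*} [Field F] [Algebra F K] {a : Sym2 (LL sz) × JJ sz → K}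

theorem lemZ (ha : AlgebraicIndependent F a) {b1 b2 : Fin 6} (hb : b1 ≠ b2) (PJ : Fin 6 → Prop)
    [DecidablePred PJ] (hg : ∀ c, PJ c → gen b1 b2 c)
    (hsz : sz b1 + sz b2 < ∑ c, if PJ c then sz (src c) else 0) : NZ a b1 b2 PJ := by
  classical
  intro x y hx hx0 hy hy0
  by_contra h
  push Not at h
  obtain ⟨l1, hl1⟩ := Function.ne_iff.mp hx0
  obtain ⟨l2, hl2⟩ := Function.ne_iff.mp hy0
  have h1 : l1.1 = b1 := by by_contra h1; exact hl1 (hx _ h1)
  have h2 : l2.1 = b2 := by by_contra h2; exact hl2 (hy _ h2)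
  let S : Finset K := (univ.filter (fun l : LL sz => l.1 = b1)).image x ∪
    (univ.filter (fun l : LL sz => l.1 = b2)).image y
  have hS : S.card ≤ sz b1 + sz b2 := by
    refine (card_union_le _ _).trans (Nat.add_le_add (card_image_le.trans ?_)
      (card_image_le.trans ?_))
    · rw [card_blk sz (fun c => c = b1)]; simp
    · rw [card_blk sz (fun c => c = b2)]; simp
  have hk := key (ι := (univ.filter (fun j : JJ sz => PJ j.1))) a ha (ten a) (ten_cases a) S
    (fun _ => x) (fun _ => y) (fun i => Pi.single i.1 1) ?_ ?_ (fun i j => single_mem _ _ _) ?_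
    (fun _ => l1) (fun _ => l2) (fun i => i.1) ?_ ?_ ?_ ?_
  · rw [Fintype.card_coe, card_blk (fun c => sz (src c)) PJ] at hk
    omega
  · intro _ l
    by_cases h3 : l.1 = b1
    · exact IntermediateField.subset_adjoin F _
        (mem_coe.mpr (mem_union_left _ (mem_image_of_mem x (by simpa using h3))))
    · rw [hx l h3]; exact zero_mem _
  · intro _ l
    by_cases h3 : l.1 = b2
    · exact IntermediateField.subset_adjoin F _
        (mem_coe.mpr (mem_union_right _ (mem_image_of_mem y (by simpa using h3))))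
    · rw [hy l h3]; exact zero_mem _
  · intro i
    rw [single_sum]
    exact h i.1 (mem_filter.mp i.2).2
  · intro i
    refine ten_gen a (fun h3 => hb (by rw [← h1, ← h2, h3])) ?_
    rw [h1, h2]
    exact hg _ (mem_filter.mp i.2).2
  · intro i
    simpa using ⟨hl1, hl2⟩
  · intro i k hik
    rw [Pi.single_eq_of_ne (fun h3 => hik (Subtype.ext h3).symm), mul_zero]
  · intro i k
    rw [hx l2 (by rw [h2]; exact hb.symm), zero_mul, zero_mul]

theorem piv_inj {L ι : Type*} {p : ι → L} {y : ι → L → K} (hd : ∀ i, y i (p i) = 1)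
    (ho : ∀ i i', i ≠ i' → y i (p i') = 0) : Function.Injective p := by
  intro i i' h
  by_contra hne
  have := ho i i' hne
  rw [← h, hd] at this
  exact one_ne_zero this

theorem lemK (ha : AlgebraicIndependent F a) (x : LL sz → K) (l0 : LL sz) (hl0 : 4 ≤ l0.1.val)
    (hx0 : x l0 ≠ 0) (u v : ℕ) (huv : u ≤ v) (hv : v < 4) {k : ℕ}
    (hk : ∑ b, sz b < k * k)
    (hsz : (∑ b, if b.val ≤ v then sz b else 0) ≤ ∑ c, if thr c ≤ u then sz (src c) else 0)
    (p : Fin k → LL sz) (y : Fin k → LL sz → K) (hp : ∀ i, u ≤ (p i).1.val ∧ (p i).1.val ≤ v)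
    (hy : ∀ i l, v < l.1.val → y i l = 0) (hm : ∀ i, mul a x (y i) = 0)
    (hd : ∀ i, y i (p i) = 1) (ho : ∀ i i', i ≠ i' → y i (p i') = 0) : False := by
  classical
  have hinj := piv_inj hd ho
  let C : Finset (LL sz) := univ.filter (fun l : LL sz => l.1.val ≤ v)
  have hsub : univ.image p ⊆ C := by
    intro l hl
    obtain ⟨i, -, rfl⟩ := mem_image.mp hl
    exact mem_filter.mpr ⟨mem_univ _, (hp i).2⟩
  have hc1 : (univ.image p).card = k := by rw [card_image_of_injective _ hinj]; simp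
  have hc2 : k ≤ C.card := hc1 ▸ card_le_card hsub
  have hc3 : C.card = ∑ b, if b.val ≤ v then sz b else 0 := card_blk sz (fun b => b.val ≤ v)
  let S : Finset K := univ.image x ∪
    ((univ : Finset (Fin k)) ×ˢ (C \ univ.image p)).image (fun t => y t.1 t.2)
  have hS : S.card ≤ ∑ b, sz b + k * (C.card - k) := by
    refine (card_union_le _ _).trans (Nat.add_le_add (card_image_le.trans ?_)
      (card_image_le.trans ?_))
    · simp
    · rw [card_product, card_sdiff_of_subset hsub, hc1]; simp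
  have hk := key (ι := Fin k × (univ.filter (fun j : JJ sz => thr j.1 ≤ u))) a ha (ten a)
    (ten_cases a) S (fun _ => x) (fun i => y i.1) (fun i => Pi.single i.2.1 1) ?_ ?_
    (fun i j => single_mem _ _ _) ?_ (fun _ => l0) (fun i => p i.1) (fun i => i.2.1) ?_ ?_ ?_ ?_
  · rw [Fintype.card_prod, Fintype.card_fin, Fintype.card_coe,
      card_blk (fun c => sz (src c)) (fun c => thr c ≤ u)] at hk
    rw [← hc3] at hsz
    obtain ⟨d, hd⟩ := Nat.exists_eq_add_of_le hc2
    rw [hd, Nat.add_sub_cancel_left] at hS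
    rw [hd] at hsz
    have := Nat.mul_le_mul_left k hsz
    rw [mul_add] at this
    omega
  · intro _ l
    exact IntermediateField.subset_adjoin F _
      (mem_coe.mpr (mem_union_left _ (mem_image_of_mem x (mem_univ _))))
  · intro i l
    by_cases h3 : l ∈ C \ univ.image p
    · exact IntermediateField.subset_adjoin F _ (mem_coe.mpr (mem_union_right _
        (mem_image.mpr ⟨(i.1, l), mem_product.mpr ⟨mem_univ _, h3⟩, rfl⟩)))
    · by_cases h4 : l ∈ univ.image p
      · obtain ⟨i', -, rfl⟩ := mem_image.mp h4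
        by_cases h5 : i.1 = i'
        · rw [← h5, hd]; exact one_mem _
        · rw [ho _ _ h5]; exact zero_mem _
      · have h5 : l ∉ C := fun h5 => h3 (mem_sdiff.mpr ⟨h5, h4⟩)
        rw [hy _ l (by simpa [C] using h5)]
        exact zero_mem _
  · intro i
    rw [single_sum]
    exact congrFun (hm i.1) i.2.1
  · intro i
    have h1 := hp i.1
    refine ten_gen a (fun h3 => by rw [h3] at hl0; omega) (Or.inl ⟨hl0, ?_⟩)
    exact (mem_filter.mp i.2.2).2.trans h1.1
  · intro i
    simpa [hd] using hx0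
  · intro i i' hik
    by_cases h1 : i.1 = i'.1
    · rw [Pi.single_eq_of_ne (fun h3 => hik (Prod.ext h1 (Subtype.ext h3).symm)), mul_zero]
    · rw [ho _ _ h1, mul_zero, zero_mul]
  · intro i i'
    rw [hy _ l0 (by omega), mul_zero, zero_mul]

theorem lemR (ha : AlgebraicIndependent F a) (q : JJ sz → K) (hq : q ≠ 0) {h : ℕ}
    (hh : ∑ c, sz (src c) < h * h) (p : Fin (h + h) → LL sz) (y : Fin (h + h) → LL sz → K)
    (hp : ∀ i, 4 ≤ (p i).1.val) (hm : ∀ i v, ∑ j, q j * mul a (y i) v j = 0)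
    (hd : ∀ i, y i (p i) = 1) (ho : ∀ i i', i ≠ i' → y i (p i') = 0) : False := by
  classical
  have hinj := piv_inj hd ho
  obtain ⟨j0, hj0, hj1⟩ := exists_min_image (univ.filter (fun j => q j ≠ 0))
    (fun j : JJ sz => thr j.1) (by
      obtain ⟨j, hj⟩ := Function.ne_iff.mp hq
      exact ⟨j, mem_filter.mpr ⟨mem_univ _, hj⟩⟩)
  have hj2 : q j0 ≠ 0 := (mem_filter.mp hj0).2
  have hthr : ∀ c, thr c ≤ 4 := by decide
  let N : Finset (LL sz) := univ.filter (fun l : LL sz => thr j0.1 ≤ l.1.val)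
  have hpN : ∀ i, p i ∈ N := fun i => mem_filter.mpr ⟨mem_univ _, (hthr _).trans (hp i)⟩
  have hsub : univ.image p ⊆ N := by
    intro l hl
    obtain ⟨i, -, rfl⟩ := mem_image.mp hl
    exact hpN i
  let p' : Fin h → LL sz := fun i => p (Fin.castAdd h i)
  have hsub' : univ.image p' ⊆ N := by
    intro l hl
    obtain ⟨i, -, rfl⟩ := mem_image.mp hl
    exact hpN _
  have hc1 : (univ.image p).card = h + h := by rw [card_image_of_injective _ hinj]; simp
  have hc1' : (univ.image p').card = h := by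
    have h1 : Function.Injective p' := hinj.comp (Fin.castAdd_injective h h)
    rw [card_image_of_injective _ h1]; simp
  have hc2 : h + h ≤ N.card := hc1 ▸ card_le_card hsub
  let y' : Fin h → LL sz → K := fun i l => if l ∈ N then y (Fin.castAdd h i) l else 0
  let S : Finset K := univ.image q ∪
    ((univ : Finset (Fin h)) ×ˢ (N \ univ.image p)).image (fun t => y' t.1 t.2)
  have hS : S.card ≤ ∑ c, sz (src c) + h * (N.card - (h + h)) := by
    refine (card_union_le _ _).trans (Nat.add_le_add (card_image_le.trans ?_)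
      (card_image_le.trans ?_))
    · simp
    · rw [card_product, card_sdiff_of_subset hsub, hc1]; simp
  have hk := key (ι := Fin h × (N \ univ.image p' : Finset (LL sz))) a ha (ten a)
    (ten_cases a) S (fun i => y' i.1) (fun i => Pi.single i.2.1 1) (fun _ => q) ?_
    (fun i j => single_mem _ _ _) ?_ ?_ (fun i => p' i.1) (fun i => i.2.1) (fun _ => j0)
    ?_ ?_ ?_ ?_
  · rw [Fintype.card_prod, Fintype.card_fin, Fintype.card_coe, card_sdiff_of_subset hsub',
      hc1'] at hk
    obtain ⟨d, hd⟩ := Nat.exists_eq_add_of_le hc2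
    rw [hd, Nat.add_sub_cancel_left] at hS
    rw [hd, add_assoc, Nat.add_sub_cancel_left, mul_add] at hk
    omega
  · intro i l
    by_cases h3 : l ∈ N \ univ.image p
    · exact IntermediateField.subset_adjoin F _ (mem_coe.mpr (mem_union_right _
        (mem_image.mpr ⟨(i.1, l), mem_product.mpr ⟨mem_univ _, h3⟩, rfl⟩)))
    · by_cases h4 : l ∈ univ.image p
      · obtain ⟨i', -, rfl⟩ := mem_image.mp h4
        simp only [y', if_pos (hpN i')]
        by_cases h5 : Fin.castAdd h i.1 = i'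
        · rw [← h5, hd]; exact one_mem _
        · rw [ho _ _ h5]; exact zero_mem _
      · have h5 : l ∉ N := fun h5 => h3 (mem_sdiff.mpr ⟨h5, h4⟩)
        simp only [y', if_neg h5]
        exact zero_mem _
  · intro _ j
    exact IntermediateField.subset_adjoin F _
      (mem_coe.mpr (mem_union_left _ (mem_image_of_mem q (mem_univ _))))
  · intro i
    rw [← hm (Fin.castAdd h i.1) (Pi.single i.2.1 1)]
    refine sum_congr rfl (fun j _ => ?_)
    by_cases h1 : q j = 0
    · rw [h1, zero_mul, zero_mul]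
    · congr 1
      refine sum_congr rfl (fun l _ => sum_congr rfl (fun l' _ => ?_))
      by_cases h2 : l ∈ N
      · simp only [y', if_pos h2]
      · have h3 := hj1 j (mem_filter.mpr ⟨mem_univ _, h1⟩)
        have h4 : l.1.val < thr j0.1 := by simpa [N] using h2
        rw [ten_rad a l' (lt_of_lt_of_le h4 h3), mul_zero, mul_zero]
  · intro i
    obtain ⟨h1, h2⟩ := mem_sdiff.mp i.2.2
    refine ten_gen a (fun h3 => h2 (h3 ▸ mem_image_of_mem p' (mem_univ _)))
      (Or.inl ⟨hp _, (mem_filter.mp h1).2⟩)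
  · intro i
    simpa [y', p', hpN, hd] using hj2
  · intro i i' hik
    by_cases h1 : i.1 = i'.1
    · rw [Pi.single_eq_of_ne (fun h3 => hik (Prod.ext h1 (Subtype.ext h3).symm)), mul_zero,
        zero_mul]
    · have h2 : y' i.1 (p' i'.1) = 0 := by
        simp only [y', p', if_pos (hpN _)]
        exact ho _ _ (fun h3 => h1 (Fin.castAdd_injective h h h3))
      rw [h2, zero_mul, zero_mul]
  · intro i i'
    have h2 := (mem_sdiff.mp i.2.2).2
    have h3 : p' i'.1 ≠ i.2.1 := fun h3 => h2 (h3 ▸ mem_image_of_mem p' (mem_univ _))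
    rw [Pi.single_eq_of_ne h3, mul_zero, zero_mul]

end generic

/-- the size conditions -/
structure Sizes (sz : Fin 6 → ℕ) (k h : ℕ) : Prop where
  z12 : sz 0 + sz 2 < sz 1
  z13 : sz 0 + sz 4 < sz 2 + sz 3
  z23 : sz 2 < sz 3
  k2 : sz 0 ≤ sz 3 + sz 4
  kk : sz 0 + sz 1 + sz 2 + sz 3 + sz 4 + sz 5 < k * k
  hh : sz 1 + sz 2 + sz 3 + sz 3 + sz 4 + sz 5 < h * h
  ha : sz 3 + 2 * h + 2 * k ≤ sz 0
  hb : 2 * h + sz 1 + sz 2 + 2 * sz 3 ≤ sz 5

/-- no annihilator lies in the radical of a nonzero form -/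
def UK (a : Sym2 (LL sz) × JJ sz → K) : Prop :=
  ∀ (x : LL sz → K) (q : JJ sz → K), q ≠ 0 →
    ∃ z v : LL sz → K, mul a x z = 0 ∧ ∑ j, q j * mul a z v j ≠ 0

theorem big_ann {F : Type*} [Field F] [Algebra F K] {a : Sym2 (LL sz) × JJ sz → K}
    (ha : AlgebraicIndependent F a) {k h : ℕ} (hs : Sizes sz k h) (x : LL sz → K) :
    ∃ Y : Submodule K (LL sz → K), (∀ z ∈ Y, mul a x z = 0) ∧
      (h + h) + Module.finrank K (Y ⊓ van K (fun l : LL sz => 4 ≤ l.1.val) : Submodule K _) ≤
        Module.finrank K Y := by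
  classical
  obtain ⟨z12, z13, z23, k2, kk, hh, hA, hB⟩ := hs
  have hn : Fintype.card (LL sz) = sz 0 + sz 1 + sz 2 + sz 3 + sz 4 + sz 5 := by
    simp [Fin.sum_univ_six]
  have hw : Fintype.card (JJ sz) = sz 1 + sz 2 + sz 3 + sz 3 + sz 4 + sz 5 := by
    rw [Fintype.card_sigma]
    simp only [Fintype.card_fin]
    simp [Fin.sum_univ_six, src]
  by_cases hx : ∃ l0 : LL sz, 4 ≤ l0.1.val ∧ x l0 ≠ 0
  · obtain ⟨l0, hl0, hx0⟩ := hx
    have hk : ∑ b, sz b < k * k := by rw [Fin.sum_univ_six]; exact kk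
    let A : Submodule K (LL sz → K) := LinearMap.ker (mulB a x)
    refine ⟨A, fun z hz => hz, ?_⟩
    have h1 := LinearMap.finrank_range_add_finrank_ker (mulB a x)
    have h2 := Submodule.finrank_le (LinearMap.range (mulB a x))
    rw [Module.finrank_fintype_fun_eq_card] at h1 h2
    set A3 : Submodule K (LL sz → K) := A ⊓ van K (fun l : LL sz => 4 ≤ l.1.val) with hA3
    set A2 : Submodule K (LL sz → K) :=
      A3 ⊓ van K (fun l : LL sz => 2 ≤ l.1.val ∧ l.1.val ≤ 3) with hA2
    have h3 : Module.finrank K A3 < k + Module.finrank K A2 := by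
      by_contra h3
      obtain ⟨p, y, hp, hy, hd, ho⟩ := echelon _ k A3 (not_lt.mp h3)
      refine lemK ha x l0 hl0 hx0 2 3 (by omega) (by omega) hk ?_ p y hp
        (fun i l hl => (hy i).2 l hl) (fun i => (hy i).1) hd ho
      simp [Fin.sum_univ_six, thr, src]
      omega
    have h4 : Module.finrank K A2 < k + Module.finrank K
        (A2 ⊓ van K (fun l : LL sz => 0 ≤ l.1.val ∧ l.1.val ≤ 1) : Submodule K _) := by
      by_contra h4
      obtain ⟨p, y, hp, hy, hd, ho⟩ := echelon _ k A2 (not_lt.mp h4)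
      refine lemK ha x l0 hl0 hx0 0 1 (by omega) (by omega) hk ?_ p y hp
        (fun i l hl => ?_) (fun i => (hy i).1.1) hd ho
      · simp [Fin.sum_univ_six, thr, src]
        omega
      · by_cases h5 : 4 ≤ l.1.val
        · exact (hy i).1.2 l h5
        · exact (hy i).2 l ⟨by omega, by omega⟩
    have h5 : (A2 ⊓ van K (fun l : LL sz => 0 ≤ l.1.val ∧ l.1.val ≤ 1) : Submodule K _) = ⊥ := by
      rw [eq_bot_iff]
      intro z hz
      rw [Submodule.mem_bot]
      funext l
      by_cases h5 : 4 ≤ l.1.val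
      · exact hz.1.1.2 l h5
      · by_cases h6 : 2 ≤ l.1.val
        · exact hz.1.2 l ⟨h6, by omega⟩
        · exact hz.2 l ⟨by omega, by omega⟩
    rw [h5, finrank_bot] at h4
    change _ + Module.finrank K A = _ at h1
    omega
  · push Not at hx
    let C : Finset (LL sz) := univ.filter (fun l : LL sz => l.1.val < 4)
    let D : Finset (JJ sz) := univ.filter (fun j : JJ sz => thr j.1 < 4)
    let g : (LL sz → K) →ₗ[K] ((C → K) × (D → K)) :=
      (LinearMap.funLeft K K Subtype.val).prod ((LinearMap.funLeft K K Subtype.val).comp (mulB a x))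
    have hg : ∀ z ∈ LinearMap.ker g, (∀ l : LL sz, l.1.val < 4 → z l = 0) ∧
        ∀ j : JJ sz, thr j.1 < 4 → mul a x z j = 0 := by
      intro z hz
      obtain ⟨h1, h2⟩ := Prod.mk.inj (LinearMap.mem_ker.mp hz)
      exact ⟨fun l hl => congrFun h1 ⟨l, mem_filter.mpr ⟨mem_univ _, hl⟩⟩,
        fun j hj => congrFun h2 ⟨j, mem_filter.mpr ⟨mem_univ _, hj⟩⟩⟩
    refine ⟨LinearMap.ker g, fun z hz => ?_, ?_⟩
    · funext j
      by_cases h1 : thr j.1 < 4
      · exact (hg z hz).2 j h1
      · refine sum_eq_zero (fun l _ => sum_eq_zero (fun l' _ => ?_))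
        by_cases h2 : 4 ≤ l.1.val
        · rw [hx l h2, zero_mul, zero_mul]
        · rw [ten_rad a l' (by omega), mul_zero]
    · have h5 : (LinearMap.ker g ⊓ van K (fun l : LL sz => 4 ≤ l.1.val) : Submodule K _) = ⊥ := by
        rw [eq_bot_iff]
        intro z hz
        rw [Submodule.mem_bot]
        funext l
        by_cases h5 : 4 ≤ l.1.val
        · exact hz.2 l h5
        · exact (hg z hz.1).1 l (by omega)
      have h1 := LinearMap.finrank_range_add_finrank_ker g
      have h2 := Submodule.finrank_le (LinearMap.range g)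
      rw [Module.finrank_fintype_fun_eq_card] at h1
      rw [Module.finrank_prod, Module.finrank_fintype_fun_eq_card,
        Module.finrank_fintype_fun_eq_card, Fintype.card_coe, Fintype.card_coe,
        card_blk sz (fun b => b.val < 4), card_blk (fun c => sz (src c)) (fun c => thr c < 4)] at h2
      simp [Fin.sum_univ_six, thr, src] at h2
      rw [h5, finrank_bot]
      omega

/-- the four properties needed -/
def Good (a : Sym2 (LL sz) × JJ sz → K) : Prop :=
  UK a ∧ NZ a 0 2 (fun c => c = 0) ∧ NZ a 0 4 (fun c => c = 1 ∨ c = 2) ∧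
    NZ a 2 4 (fun c => c = 3 ∨ c = 4)

theorem good_generic {F : Type*} [Field F] [Algebra F K] {a : Sym2 (LL sz) × JJ sz → K}
    (ha : AlgebraicIndependent F a) {k h : ℕ} (hs : Sizes sz k h) : Good a := by
  refine ⟨?_, lemZ ha (by decide) _ (by decide) ?_, lemZ ha (by decide) _ (by decide) ?_,
    lemZ ha (by decide) _ (by decide) ?_⟩
  · intro x q hq
    by_contra hc
    push Not at hc
    obtain ⟨Y, hY1, hY2⟩ := big_ann ha hs x
    obtain ⟨p, y, hp, hy, hd, ho⟩ := echelon _ (h + h) Y hY2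
    refine lemR ha q hq ?_ p y hp (fun i v => hc _ v (hY1 _ (hy i))) hd ho
    simpa [Fin.sum_univ_six, src] using hs.hh
  · simpa [Fin.sum_univ_six, src] using hs.z12
  · simpa [Fin.sum_univ_six, src] using hs.z13
  · have := hs.z23
    simp [Fin.sum_univ_six, src]
    omega

end Pool.Agent.Lib.MP_8dd27d_al.Closed
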