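import Pool.Agent.Lib.MP_8dd27d_al.Closed.Model

set_option autoImplicit false

namespace Pool.Agent.Lib.MP_8dd27d_al.Closed

open Finset

variable {K : Type*} [Field K] {sz : Fin 6 → ℕ}

theorem diag_sum (a : Sym2 (LL sz) × JJ sz → K) (x y : LL sz → K) (j : JJ sz) :
    ∑ l, x l * y l * ten a l l j = x (del j) * y (del j) := by
  rw [sum_eq_single (del j) (fun b _ hb => by simp [ten, hb.symm]) (by simp)]
  simp [ten]

theorem mul_self' [CharP K 2] (a : Sym2 (LL sz) × JJ sz → K) (x : LL sz → K) (j : JJ sz) :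
    mul a x x j = x (del j) * x (del j) := by
  let g : LL sz × LL sz → K := fun t => if t.1 = t.2 then 0 else x t.1 * x t.2 * ten a t.1 t.2 j
  have h1 : ∑ t, g t = 0 := by
    refine sum_involution (fun t _ => t.swap) (fun t _ => ?_) (fun t _ h h' => ?_)
      (fun _ _ => mem_univ _) (fun _ _ => rfl)
    · by_cases h : t.1 = t.2
      · simp [g, h]
      · simp only [g, Prod.fst_swap, Prod.snd_swap, if_neg h, if_neg (Ne.symm h)]
        rw [ten_symm a t.2, mul_comm (x t.2), CharTwo.add_self_eq_zero]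
    · apply h
      have h2 : t.1 = t.2 := (congrArg Prod.fst h').symm
      simp [g, h2]
  rw [← diag_sum a, ← add_zero (∑ l, x l * x l * ten a l l j), ← h1, Fintype.sum_prod_type,
    ← sum_add_distrib]
  refine sum_congr rfl (fun l _ => ?_)
  rw [← add_sum_erase _ _ (mem_univ l), ← add_sum_erase _ (fun l' => g (l, l')) (mem_univ l)]
  simp only [g, if_true, zero_add]
  congr 1
  exact sum_congr rfl (fun l' hl' => by rw [if_neg (ne_of_mem_erase hl').symm])

/-- `x` is supported on the blocks satisfying `P` -/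
def Sup (P : Fin 6 → Prop) (x : LL sz → K) : Prop := ∀ l, ¬ P l.1 → x l = 0

def cut (b : Fin 6) (x : LL sz → K) : LL sz → K := fun l => if l.1 = b then x l else 0

theorem mul_diag (a : Sym2 (LL sz) × JJ sz → K) {P : Fin 6 → Prop} {x y : LL sz → K}
    (hx : Sup P x) (hy : Sup P y) (j : JJ sz) (h : ∀ b b', P b → P b' → ¬ gen b b' j.1) :
    mul a x y j = x (del j) * y (del j) := by
  rw [← diag_sum a]
  refine sum_congr rfl (fun l _ => sum_eq_single l (fun l' _ hl => ?_) (by simp))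
  by_cases h1 : P l.1
  · by_cases h2 : P l'.1
    · simp [ten, hl.symm, h _ _ h1 h2]
    · rw [hy l' h2, mul_zero, zero_mul]
  · rw [hx l h1, zero_mul, zero_mul]

theorem mul_rad (a : Sym2 (LL sz) × JJ sz → K) {u : ℕ} {x : LL sz → K}
    (hx : Sup (fun b => b.val < u) x) (y : LL sz → K) (j : JJ sz) (h : u ≤ thr j.1) :
    mul a x y j = 0 := by
  refine sum_eq_zero (fun l _ => sum_eq_zero (fun l' _ => ?_))
  by_cases h1 : l.1.val < u
  · rw [ten_rad a l' (by omega), mul_zero]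
  · rw [hx l h1, zero_mul, zero_mul]

theorem mul_cut (a : Sym2 (LL sz) × JJ sz → K) {P Q : Fin 6 → Prop} {x y : LL sz → K}
    (hx : Sup P x) (hy : Sup Q y) (b1 b2 : Fin 6) (j : JJ sz)
    (h : ∀ b b', P b → Q b' → (b ≠ b1 ∨ b' ≠ b2) → ¬ gen b b' j.1 ∧ (b ≠ b' ∨ src j.1 ≠ b)) :
    mul a (cut b1 x) (cut b2 y) j = mul a x y j := by
  refine sum_congr rfl (fun l _ => sum_congr rfl (fun l' _ => ?_))
  by_cases h0 : l.1 = b1 ∧ l'.1 = b2
  · simp only [cut, if_pos h0.1, if_pos h0.2]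
  · have h3 : cut b1 x l * cut b2 y l' = 0 := by
      rcases not_and_or.mp h0 with h3 | h3 <;> simp [cut, h3]
    rw [h3, zero_mul]
    by_cases h1 : P l.1
    · by_cases h2 : Q l'.1
      · obtain ⟨h4, h5⟩ := h _ _ h1 h2 (not_and_or.mp h0)
        have h6 : ten a l l' j = 0 := by
          unfold ten
          split_ifs with h6 h7
          · rcases h5 with h5 | h5
            · exact absurd (congrArg Sigma.fst h6) h5
            · exact absurd (congrArg Sigma.fst h7) h5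
          · rfl
          · rfl
        rw [h6, mul_zero]
      · rw [hy l' h2, mul_zero, zero_mul]
    · rw [hx l h1, zero_mul, zero_mul]

theorem sq_zero [CharP K 2] (a : Sym2 (LL sz) × JJ sz → K) {x : LL sz → K} {c : Fin 6}
    (h : ∀ j : JJ sz, j.1 = c → mul a x x j = 0) (l : LL sz) (hl : src c = l.1) : x l = 0 := by
  obtain ⟨b, i⟩ := l
  subst hl
  have := h ⟨c, i⟩ rfl
  rw [mul_self'] at this
  exact mul_self_eq_zero.mp this

theorem cut_ne {x : LL sz → K} {u : ℕ} {b : Fin 6} (h1 : ¬ Sup (fun b => b.val < u) x)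
    (h2 : Sup (fun b' => b'.val < u ∨ b' = b) x) : cut b x ≠ 0 := by
  intro h
  refine h1 (fun l hl => ?_)
  by_cases h3 : l.1 = b
  · simpa [cut, h3] using congrFun h l
  · exact h2 l (fun h4 => h4.elim hl h3)

theorem cut_sup (b : Fin 6) (x : LL sz → K) : ∀ l, l.1 ≠ b → cut b x l = 0 :=
  fun l hl => by simp [cut, hl]

section order

variable {I Γ : Type*} [Fintype I] [AddCommMonoid Γ] [LinearOrder Γ] [IsOrderedCancelAddMonoid Γ]

/-- the product `v i * v k` lies in the span of smaller products (coordinatewise form) -/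
def NS (a : Sym2 (LL sz) × JJ sz → K) (r : I → Γ) (v : I → LL sz → K) (i k : I) : Prop :=
  ∀ j, (∀ i' k', r i' + r k' < r i + r k → mul a (v i') (v k') j = 0) → mul a (v i) (v k) j = 0

theorem lemS {a : Sym2 (LL sz) × JJ sz → K} {r : I → Γ} {v : I → LL sz → K}
    (hsq : ∀ i, NS a r v i i) (PJ : Fin 6 → Prop) (i0 k0 : I)
    (h : ∀ i k, r i + r k < r i0 + r k0 → r i ≤ r k → (∃ j, PJ j.1 ∧ mul a (v i) (v k) j ≠ 0) →
      ∃ j, PJ j.1 ∧ mul a (v i) (v i) j ≠ 0)
    (hns : NS a r v i0 k0) (j : JJ sz) (hj : PJ j.1) : mul a (v i0) (v k0) j = 0 := by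
  classical
  refine hns j (fun i k hik => ?_)
  by_contra hne
  obtain ⟨t, ht, hmin⟩ := exists_min_image
    (univ.filter (fun t : I × I => ∃ j, PJ j.1 ∧ mul a (v t.1) (v t.2) j ≠ 0))
    (fun t => r t.1 + r t.2) ⟨(i, k), mem_filter.mpr ⟨mem_univ _, j, hj, hne⟩⟩
  have hmin' : ∀ i' k', (∃ j, PJ j.1 ∧ mul a (v i') (v k') j ≠ 0) → r t.1 + r t.2 ≤ r i' + r k' :=
    fun i' k' h' => hmin (i', k') (mem_filter.mpr ⟨mem_univ _, h'⟩)
  have hlt : r t.1 + r t.2 < r i0 + r k0 := lt_of_le_of_lt (hmin' i k ⟨j, hj, hne⟩) hik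
  have ht' := (mem_filter.mp ht).2
  have key : ∀ i1, r i1 + r i1 ≤ r t.1 + r t.2 → (∃ j, PJ j.1 ∧ mul a (v i1) (v i1) j ≠ 0) →
      False := by
    rintro i1 h1 ⟨j1, h2, h3⟩
    refine h3 (hsq i1 j1 (fun i' k' h4 => ?_))
    by_contra h5
    exact absurd (hmin' i' k' ⟨j1, h2, h5⟩) (not_le.mpr (lt_of_lt_of_le h4 h1))
  rcases le_total (r t.1) (r t.2) with h1 | h1
  · exact key t.1 (add_le_add le_rfl h1) (h _ _ hlt h1 ht')
  · refine key t.2 (add_le_add h1 le_rfl) (h t.2 t.1 (by rwa [add_comm]) h1 ?_)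
    rwa [mul_comm']

theorem first_out [CharP K 2] {a : Sym2 (LL sz) × JJ sz → K} {r : I → Γ} {v : I → LL sz → K}
    (hsq : ∀ i, NS a r v i i) (hspan : Submodule.span K (Set.range v) = ⊤) (l0 : LL sz) (u : ℕ)
    (hl0 : u ≤ l0.1.val) : ∃ c, ¬ Sup (fun b => b.val < u) (v c) ∧
      (∀ i, r i < r c → Sup (fun b => b.val < u) (v i)) ∧
      ∀ (l : LL sz) (c' : Fin 6), u ≤ thr c' → src c' = l.1 → v c l = 0 := by
  classical
  have hne : (univ.filter (fun i => ¬ Sup (fun b => b.val < u) (v i))).Nonempty := by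
    by_contra h
    have h1 : Submodule.span K (Set.range v) ≤ van K (fun l : LL sz => ¬ l.1.val < u) := by
      rw [Submodule.span_le]
      rintro _ ⟨i, rfl⟩
      by_contra h2
      exact h ⟨i, mem_filter.mpr ⟨mem_univ _, h2⟩⟩
    rw [hspan] at h1
    have h2 := h1 (Submodule.mem_top (x := fun _ => (1 : K))) l0 (by omega)
    exact one_ne_zero h2
  obtain ⟨c, hc, hmin⟩ := exists_min_image _ r hne
  have h1 : ∀ i, r i < r c → Sup (fun b => b.val < u) (v i) := by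
    intro i hi
    by_contra h
    exact absurd (hmin i (mem_filter.mpr ⟨mem_univ _, h⟩)) (not_le.mpr hi)
  refine ⟨c, (mem_filter.mp hc).2, h1, fun l c' h2 h3 => sq_zero a (fun j hj => ?_) l h3⟩
  refine hsq c j (fun i k hik => ?_)
  rcases lt_or_lt_of_add_lt_add hik with h4 | h4
  · exact mul_rad a (h1 i h4) _ j (hj ▸ h2)
  · rw [mul_comm']
    exact mul_rad a (h1 k h4) _ j (hj ▸ h2)

theorem diag_sq [CharP K 2] {a : Sym2 (LL sz) × JJ sz → K} {P PJ : Fin 6 → Prop}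
    {x y : LL sz → K} (hx : Sup P x) (hy : Sup P y)
    (h : ∀ c, PJ c → ∀ b b', P b → P b' → ¬ gen b b' c)
    (h1 : ∃ j, PJ j.1 ∧ mul a x y j ≠ 0) : ∃ j, PJ j.1 ∧ mul a x x j ≠ 0 := by
  obtain ⟨j, h2, h3⟩ := h1
  rw [mul_diag a hx hy j (h _ h2)] at h3
  refine ⟨j, h2, ?_⟩
  rw [mul_self']
  exact mul_self_ne_zero.mpr (left_ne_zero_of_mul h3)

theorem no_order [CharP K 2] {a : Sym2 (LL sz) × JJ sz → K} (hg : Good a) (h5 : 0 < sz 5)
    (r : I → Γ) (v : I → LL sz → K) (hv : ∀ i, v i ≠ 0)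
    (hspan : Submodule.span K (Set.range v) = ⊤)
    (hns : ∀ i k m, NS a r v i k ∨ NS a r v i m ∨ NS a r v k m) : False := by
  obtain ⟨-, z12, z13, z23⟩ := hg
  have hsq : ∀ i, NS a r v i i := fun i => by
    rcases hns i i i with h | h | h <;> exact h
  let l0 : LL sz := ⟨5, ⟨0, h5⟩⟩
  obtain ⟨c1, -, a2, a3⟩ := first_out hsq hspan l0 0 (Nat.zero_le _)
  obtain ⟨c2, b1, b2, b3⟩ := first_out hsq hspan l0 2 (by simp [l0])
  obtain ⟨c3, d1, d2, d3⟩ := first_out hsq hspan l0 4 (by simp [l0])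
  have hmin : ∀ i, r c1 ≤ r i := by
    intro i
    by_contra h
    exact hv i (funext fun l => a2 i (not_le.mp h) l (by omega))
  have e1 : ∀ b : Fin 6, ¬ b = 0 → ∃ c, 0 ≤ thr c ∧ src c = b := by decide
  have e2 : ∀ b : Fin 6, ¬ (b.val < 2 ∨ b = 2) → ∃ c, 2 ≤ thr c ∧ src c = b := by decide
  have e3 : ∀ b : Fin 6, ¬ (b.val < 4 ∨ b = 4) → ∃ c, 4 ≤ thr c ∧ src c = b := by decide
  have s1 : Sup (fun b => b = 0) (v c1) := fun l hl => by
    obtain ⟨c, h1, h2⟩ := e1 _ hl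
    exact a3 l c h1 h2
  have s2 : Sup (fun b => b.val < 2 ∨ b = 2) (v c2) := fun l hl => by
    obtain ⟨c, h1, h2⟩ := e2 _ hl
    exact b3 l c h1 h2
  have s3 : Sup (fun b => b.val < 4 ∨ b = 4) (v c3) := fun l hl => by
    obtain ⟨c, h1, h2⟩ := e3 _ hl
    exact d3 l c h1 h2
  have n1 : cut 0 (v c1) ≠ 0 := by
    refine cut_ne (u := 0) (fun h => hv c1 (funext fun l => h l (by omega)))
      (fun l hl => s1 l (fun h => hl (Or.inr h)))
  have n2 := cut_ne b1 s2
  have n3 := cut_ne d1 s3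
  have small : ∀ i k c, r i + r k < r c1 + r c → r i ≤ r k → r i < r c ∧ r k < r c := by
    intro i k c h1 h2
    have h3 : r k < r c := by
      by_contra h3
      exact absurd (add_le_add (hmin i) (not_lt.mp h3)) (not_le.mpr h1)
    exact ⟨lt_of_le_of_lt h2 h3, h3⟩
  rcases hns c1 c2 c3 with h | h | h
  · obtain ⟨j, h1, h2⟩ := z12 _ _ (cut_sup 0 (v c1)) n1 (cut_sup 2 (v c2)) n2
    rw [mul_cut a s1 s2 0 2 j (by rw [h1]; decide)] at h2
    refine h2 (lemS hsq (fun c => c = 0) c1 c2 (fun i k h3 h4 => ?_) h j h1)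
    obtain ⟨h6, h7⟩ := small i k c2 h3 h4
    exact diag_sq (PJ := fun c => c = 0) (b2 i h6) (b2 k h7) (by decide)
  · obtain ⟨j, h1, h2⟩ := z13 _ _ (cut_sup 0 (v c1)) n1 (cut_sup 4 (v c3)) n3
    rw [mul_cut a s1 s3 0 4 j (by rcases h1 with h1 | h1 <;> rw [h1] <;> decide)] at h2
    refine h2 (lemS hsq (fun c => c = 1 ∨ c = 2) c1 c3 (fun i k h3 h4 => ?_) h j h1)
    obtain ⟨h6, h7⟩ := small i k c3 h3 h4
    exact diag_sq (PJ := fun c => c = 1 ∨ c = 2) (d2 i h6) (d2 k h7) (by decide)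
  · obtain ⟨j, h1, h2⟩ := z23 _ _ (cut_sup 2 (v c2)) n2 (cut_sup 4 (v c3)) n3
    rw [mul_cut a s2 s3 2 4 j (by rcases h1 with h1 | h1 <;> rw [h1] <;> decide)] at h2
    refine h2 (lemS hsq (fun c => c = 3 ∨ c = 4) c2 c3 (fun i k h3 h4 => ?_) h j h1)
    rcases lt_or_lt_of_add_lt_add h3 with h6 | h6
    · rintro ⟨j', h7, h8⟩
      exact absurd (mul_rad a (b2 i h6) _ j' (by rcases h7 with h7 | h7 <;> rw [h7] <;> decide)) h8
    · exact diag_sq (PJ := fun c => c = 3 ∨ c = 4) (d2 i (lt_of_le_of_lt h4 h6)) (d2 k h6)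
        (by decide)

end order

end Pool.Agent.Lib.MP_8dd27d_al.Closed
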