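import Mathlib

set_option autoImplicit false

namespace Pool.Agent.Lib.MP_8dd27d_al.Closed

open Matrix

variable {K R : Type*} [Field K] [CommRing R] [Algebra K R]

/-- `R = K + V + W` with `V V ⊆ W`, `V W = 0`, and `Ann(x) V = W` for all `x` in `V`. -/
structure Short (V W : Submodule K R) : Prop where
  span : ∀ r : R, ∃ c : K, ∃ v ∈ V, ∃ w ∈ W, r = algebraMap K R c + v + w
  disj : ∀ v ∈ V, ∀ w ∈ W, v + w = 0 → v = 0 ∧ w = 0
  vv : ∀ v ∈ V, ∀ v' ∈ V, v * v' ∈ W
  vw : ∀ v ∈ V, ∀ w ∈ W, v * w = 0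
  fg : V.FG
  uk : ∀ x ∈ V, W ≤ Submodule.span K {u | ∃ z ∈ V, ∃ v ∈ V, x * z = 0 ∧ u = v * z}

def cv (R : Type*) [CommRing R] [Algebra K R] {s : ℕ} (c : Fin s → K) : Fin s → R :=
  fun j => algebraMap K R (c j)

/-- linear syzygies -/
def syz (V : Submodule K R) {k s : ℕ} (A : Matrix (Fin k) (Fin s) R) : Submodule K (Fin s → R) :=
  Submodule.pi Set.univ (fun _ => V) ⊓ LinearMap.ker (A.mulVecLin.restrictScalars K)

theorem mem_syz {V : Submodule K R} {k s : ℕ} {A : Matrix (Fin k) (Fin s) R} {y : Fin s → R} :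
    y ∈ syz V A ↔ (∀ i, y i ∈ V) ∧ A *ᵥ y = 0 := by
  simp [syz, Submodule.mem_pi]

def low (K R : Type*) [Field K] [CommRing R] [Algebra K R] {s : ℕ} (ρ : Fin s → ℕ) (r : ℕ) :
    Submodule K (Fin s → R) where
  carrier := {y | ∀ i, r ≤ ρ i → y i = 0}
  add_mem' := by
    intro y z hy hz l hl
    simp [hy l hl, hz l hl]
  zero_mem' := fun _ _ => rfl
  smul_mem' := by
    intro c y hy l hl
    simp [hy l hl]

theorem low_mono {s : ℕ} (ρ : Fin s → ℕ) {r r' : ℕ} (h : r ≤ r') : low K R ρ r ≤ low K R ρ r' :=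
  fun _ hy i hi => hy i (h.trans hi)

def Tri (V : Submodule K R) {k s : ℕ} (A : Matrix (Fin k) (Fin s) R) (ρ : Fin s → ℕ) : Prop :=
  Function.Injective ρ ∧ ∀ i, ∃ x ∈ V, ∀ z ∈ V, x * z = 0 →
    ∃ y ∈ syz V A, y i = z ∧ y ∈ low K R ρ (ρ i + 1)

def GoodM (V : Submodule K R) {k s : ℕ} (A : Matrix (Fin k) (Fin s) R) : Prop :=
  (∀ i j, A i j ∈ V) ∧ (∀ c : Fin s → K, A *ᵥ cv R c = 0 → c = 0) ∧ ∃ ρ, Tri V A ρ

def prd (V : Submodule K R) {s : ℕ} (P : Submodule K (Fin s → R)) : Submodule K (Fin s → R) :=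
  Submodule.span K {u | ∃ v ∈ V, ∃ y ∈ P, u = v • y}

theorem fill {V W : Submodule K R} (h : Short V W) {k s : ℕ} {A : Matrix (Fin k) (Fin s) R}
    {ρ : Fin s → ℕ} (hA : Tri V A ρ) (r : ℕ) : ∀ w : Fin s → R, (∀ i, w i ∈ W) →
      w ∈ low K R ρ r → w ∈ prd V (syz V A ⊓ low K R ρ r) := by
  induction r with
  | zero =>
    intro w _ hw
    have : w = 0 := funext fun i => hw i (Nat.zero_le _)
    rw [this]; exact zero_mem _
  | succ r ih =>
    intro w hw1 hw2
    have hmono : prd V (syz V A ⊓ low K R ρ r) ≤ prd V (syz V A ⊓ low K R ρ (r + 1)) := by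
      refine Submodule.span_mono ?_
      rintro _ ⟨v, hv, y, hy, rfl⟩
      exact ⟨v, hv, y, ⟨hy.1, low_mono ρ (Nat.le_succ r) hy.2⟩, rfl⟩
    by_cases h0 : ∃ i0, ρ i0 = r
    · obtain ⟨i0, rfl⟩ := h0
      obtain ⟨x, hx, hx'⟩ := hA.2 i0
      have h1 : prd V (syz V A ⊓ low K R ρ (ρ i0 + 1)) ≤
          Submodule.pi Set.univ (fun _ => W) ⊓ low K R ρ (ρ i0 + 1) := by
        rw [prd, Submodule.span_le]
        rintro _ ⟨v, hv, y, hy, rfl⟩
        refine ⟨fun i _ => h.vv v hv _ ((mem_syz.mp hy.1).1 i), fun i hi => ?_⟩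
        rw [Pi.smul_apply, hy.2 i hi, smul_zero]
      have h2 : W ≤ (prd V (syz V A ⊓ low K R ρ (ρ i0 + 1))).map (LinearMap.proj i0) := by
        refine (h.uk x hx).trans (Submodule.span_le.mpr ?_)
        rintro _ ⟨z, hz, v, hv, hxz, rfl⟩
        obtain ⟨y, hy1, hy2, hy3⟩ := hx' z hz hxz
        refine ⟨v • y, Submodule.subset_span ⟨v, hv, y, ⟨hy1, hy3⟩, rfl⟩, ?_⟩
        rw [LinearMap.proj_apply, Pi.smul_apply, hy2, smul_eq_mul]
      obtain ⟨w', hw3, hw4⟩ := h2 (hw1 i0)
      have h3 := ih (w - w') (fun i => W.sub_mem (hw1 i) ((h1 hw3).1 i trivial)) (by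
        intro i hi
        rcases hi.eq_or_lt with h4 | h4
        · rw [← hA.1 h4, Pi.sub_apply, ← hw4, LinearMap.proj_apply, sub_self]
        · rw [Pi.sub_apply, hw2 i h4, (h1 hw3).2 i h4, sub_self])
      have h4 := add_mem (hmono h3) hw3
      rwa [sub_add_cancel] at h4
    · refine hmono (ih w hw1 (fun i hi => hw2 i ?_))
      rcases hi.eq_or_lt with h4 | h4
      · exact absurd ⟨i, h4.symm⟩ h0
      · exact h4

theorem adapted {M : Type*} [AddCommGroup M] [Module K M] (P : ℕ → Submodule K M)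
    (hP : Monotone P) (r : ℕ) : ∃ B : Set M, LinearIndepOn K id B ∧ B ⊆ P r ∧
      ∀ r' ≤ r, P r' ≤ Submodule.span K (B ∩ P r') := by
  have key : ∀ (B : Set M) (r : ℕ) (hB : LinearIndepOn K id B) (h : B ⊆ P r),
      P r ≤ Submodule.span K (hB.extend h ∩ P r) := by
    intro B r hB h
    rw [Set.inter_eq_left.mpr (hB.extend_subset h)]
    exact hB.subset_span_extend h
  induction r with
  | zero =>
    have hB : LinearIndepOn K id (∅ : Set M) := linearIndepOn_empty _ _
    refine ⟨hB.extend (Set.empty_subset (P 0)), hB.linearIndepOn_extend _, hB.extend_subset _,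
      fun r' hr' => ?_⟩
    rw [Nat.le_zero.mp hr']
    exact key _ _ hB _
  | succ r ih =>
    obtain ⟨B, hB, h1, h2⟩ := ih
    have h3 : B ⊆ P (r + 1) := h1.trans (hP (Nat.le_succ r))
    refine ⟨hB.extend h3, hB.linearIndepOn_extend _, hB.extend_subset _, fun r' hr' => ?_⟩
    rcases hr'.eq_or_lt with h4 | h4
    · rw [h4]; exact key _ _ hB _
    · exact (h2 r' (Nat.le_of_lt_succ h4)).trans
        (Submodule.span_mono (Set.inter_subset_inter_left _ (hB.subset_extend h3)))

theorem step {V W : Submodule K R} (h : Short V W) {k s : ℕ} (A : Matrix (Fin k) (Fin s) R)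
    (hA : GoodM V A) : ∃ (s' : ℕ) (B : Matrix (Fin s) (Fin s') R),
      GoodM V B ∧ Function.Exact B.mulVec A.mulVec := by
  classical
  obtain ⟨hA1, hA2, ρ, hA3⟩ := hA
  let r0 : ℕ := Finset.univ.sup ρ + 1
  have hr0 : ∀ y, y ∈ low K R ρ r0 := fun y i hi =>
    absurd (Finset.le_sup (f := ρ) (Finset.mem_univ i)) (by omega)
  obtain ⟨B, hB1, hB2, hB3⟩ := adapted (fun r => syz V A ⊓ low K R ρ r)
    (fun r r' hr => inf_le_inf_left _ (low_mono ρ hr)) r0
  have hfin : Finite B := by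
    obtain ⟨T, hT⟩ : (Submodule.pi Set.univ (fun _ : Fin s => V)).FG :=
      Submodule.fg_pi (fun _ => h.fg)
    refine LinearIndependent.finite_of_le_span_finite _ hB1 (T : Set (Fin s → R)) ?_
    rintro _ ⟨b, rfl⟩
    rw [hT]
    exact (hB2 b.2).1.1
  obtain ⟨s', ⟨e⟩⟩ := Finite.exists_equiv_fin B
  let b : Fin s' → Fin s → R := fun t => (e.symm t : B)
  have hb1 : LinearIndependent K b := hB1.comp e.symm e.symm.injective
  have hb2 : ∀ t, b t ∈ syz V A := fun t => (hB2 (e.symm t).2).1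
  have hb3 : ∀ y ∈ B, ∃ t, b t = y := fun y hy => ⟨e ⟨y, hy⟩, by simp [b]⟩
  let Bm : Matrix (Fin s) (Fin s') R := Matrix.of fun i t => b t i
  have hBm : ∀ (t : Fin s') (v : R), Bm *ᵥ Pi.single t v = v • b t := by
    intro t v
    funext i
    simp [Bm, mul_comm]
  have lift : ∀ r ≤ r0, ∀ m ∈ prd V (syz V A ⊓ low K R ρ r), ∃ y : Fin s' → R, ((∀ t, y t ∈ V) ∧
      ∀ t, b t ∉ low K R ρ r → y t = 0) ∧ Bm *ᵥ y = m := by
    intro r hr m hm
    let Y : Submodule K (Fin s' → R) := Submodule.pi Set.univ (fun _ => V) ⊓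
      Submodule.pi {t | b t ∉ low K R ρ r} (fun _ => ⊥)
    have h1 : prd V (syz V A ⊓ low K R ρ r) ≤ Y.map (Bm.mulVecLin.restrictScalars K) := by
      rw [prd, Submodule.span_le]
      rintro _ ⟨v, hv, y, hy, rfl⟩
      have h2 : Submodule.span K (B ∩ (syz V A ⊓ low K R ρ r : Submodule K _)) ≤
          (Y.map (Bm.mulVecLin.restrictScalars K)).comap
            ((LinearMap.lsmul R (Fin s → R) v).restrictScalars K) := by
        rw [Submodule.span_le]
        rintro y ⟨hy1, hy2⟩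
        obtain ⟨t, rfl⟩ := hb3 y hy1
        refine ⟨Pi.single t v, ⟨fun t' _ => ?_, fun t' ht' => ?_⟩, hBm t v⟩
        · by_cases h3 : t' = t
          · subst h3
            rw [Pi.single_eq_same]
            exact hv
          · rw [Pi.single_eq_of_ne h3]
            exact zero_mem _
        · rw [Pi.single_eq_of_ne (by rintro rfl; exact ht' hy2.2)]
          exact zero_mem _
      exact h2 (hB3 r hr hy)
    obtain ⟨y, hy1, hy2⟩ := h1 hm
    exact ⟨y, ⟨fun t => hy1.1 t trivial, fun t ht => (Submodule.mem_bot K).mp (hy1.2 t ht)⟩, hy2⟩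
  have hcv : ∀ c : Fin s' → K, Bm *ᵥ cv R c = ∑ t, c t • b t := by
    intro c
    funext i
    simp only [mulVec, dotProduct, Bm, cv, Finset.sum_apply, Pi.smul_apply, of_apply]
    simp only [Algebra.smul_def, mul_comm]
  let lev : Fin s' → ℕ := fun t => (Finset.univ.filter (fun i => b t i ≠ 0)).sup (fun i => ρ i + 1)
  have hlev : ∀ t r, b t ∈ low K R ρ r ↔ lev t ≤ r := by
    intro t r
    simp only [lev, Finset.sup_le_iff, Finset.mem_filter, Finset.mem_univ, true_and]
    exact ⟨fun h1 i hi => by by_contra h2; exact hi (h1 i (by omega)),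
      fun h1 i hi => by by_contra h2; have := h1 i h2; omega⟩
  refine ⟨s', Bm, ⟨fun i t => (mem_syz.mp (hb2 t)).1 i, ?_, fun t => lev t * s' + t, ?_, ?_⟩, ?_⟩
  · intro c hc
    rw [hcv] at hc
    exact funext (Fintype.linearIndependent_iff.mp hb1 c hc)
  · intro t t' htt
    have h1 := congrArg (· % s') htt
    simp only [Nat.mul_add_mod_self_right, Nat.mod_eq_of_lt t.2, Nat.mod_eq_of_lt t'.2] at h1
    exact Fin.ext h1
  · intro t
    obtain ⟨i0, hi0, hi1⟩ := Finset.exists_mem_eq_sup (Finset.univ.filter (fun i => b t i ≠ 0))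
      (by
        obtain ⟨i, hi⟩ := Function.ne_iff.mp (hb1.ne_zero t)
        exact ⟨i, Finset.mem_filter.mpr ⟨Finset.mem_univ _, hi⟩⟩) (fun i => ρ i + 1)
    have hi2 : lev t = ρ i0 + 1 := hi1
    refine ⟨b t i0, (mem_syz.mp (hb2 t)).1 i0, fun z hz hxz => ?_⟩
    have h1 : z • b t ∈ low K R ρ (ρ i0) := by
      intro i hi
      rw [Pi.smul_apply, smul_eq_mul]
      rcases hi.eq_or_lt with h4 | h4
      · rw [← hA3.1 h4, mul_comm, hxz]
      · rw [(hlev t _).mpr hi2.le i h4, mul_zero]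
    obtain ⟨y, ⟨hy1, hy2⟩, hy3⟩ := lift (ρ i0)
      ((Finset.le_sup (f := ρ) (Finset.mem_univ i0)).trans (Nat.le_succ _)) _
      (fill h hA3 (ρ i0) (z • b t) (fun i => h.vv z hz _ ((mem_syz.mp (hb2 t)).1 i)) h1)
    refine ⟨Pi.single t z - y, mem_syz.mpr ⟨fun t' => V.sub_mem ?_ (hy1 t'), ?_⟩, ?_, ?_⟩
    · by_cases h3 : t' = t
      · subst h3
        rwa [Pi.single_eq_same]
      · rw [Pi.single_eq_of_ne h3]
        exact zero_mem _
    · rw [mulVec_sub, hBm, hy3, sub_self]
    · rw [Pi.sub_apply, Pi.single_eq_same, hy2 t (by rw [hlev]; omega), sub_zero]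
    · intro t' ht'
      dsimp only at ht'
      have h2 : t' ≠ t := by rintro rfl; omega
      rw [Pi.sub_apply, Pi.single_eq_of_ne h2, hy2 t', sub_zero]
      rw [hlev]
      intro h3
      have h4 : (lev t' + 1) * s' ≤ lev t * s' := Nat.mul_le_mul_right _ (by omega)
      have h5 := t'.2
      rw [add_mul, one_mul] at h4
      omega
  · intro v
    constructor
    · intro hv
      choose c y hy w hw hv' using fun j => h.span (v j)
      have h1 : v = cv R c + y + w := funext hv'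
      have h2 : A *ᵥ w = 0 := by
        funext i
        show ∑ j, A i j * w j = 0
        exact Finset.sum_eq_zero (fun j _ => h.vw _ (hA1 i j) _ (hw j))
      rw [h1, mulVec_add, mulVec_add, h2, add_zero] at hv
      have h3 : ∀ i, (A *ᵥ cv R c) i = 0 ∧ (A *ᵥ y) i = 0 := by
        intro i
        refine h.disj _ ?_ _ ?_ (congrFun hv i)
        · show ∑ j, A i j * cv R c j ∈ _
          refine Submodule.sum_mem _ (fun j _ => ?_)
          rw [cv, mul_comm, ← Algebra.smul_def]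
          exact Submodule.smul_mem _ _ (hA1 i j)
        · show ∑ j, A i j * y j ∈ _
          exact Submodule.sum_mem _ (fun j _ => h.vv _ (hA1 i j) _ (hy j))
      have h4 : c = 0 := hA2 c (funext fun i => (h3 i).1)
      have h5 : y ∈ Submodule.span K (Set.range b) := by
        refine Submodule.span_mono ?_
          (hB3 r0 le_rfl ⟨mem_syz.mpr ⟨hy, funext fun i => (h3 i).2⟩, hr0 y⟩)
        exact fun z hz => hb3 z hz.1
      obtain ⟨c1, hc1⟩ := (Submodule.mem_span_range_iff_exists_fun K).mp h5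
      obtain ⟨y2, -, hy2⟩ := lift r0 le_rfl w (fill h hA3 r0 w hw (hr0 w))
      refine ⟨cv R c1 + y2, ?_⟩
      rw [mulVec_add, hcv, hc1, hy2, h1, h4]
      congr 1
      funext j
      simp [cv]
    · rintro ⟨r, rfl⟩
      rw [mulVec_mulVec]
      have : A * Bm = 0 := by
        ext i j
        exact congrFun (mem_syz.mp (hb2 j)).2 i
      rw [this, zero_mulVec]

theorem resolution {V W : Submodule K R} (h : Short V W) {k s : ℕ}
    (A0 : Matrix (Fin k) (Fin s) R) (hA : GoodM V A0) :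
    ∃ (b : ℕ → ℕ) (A : ∀ i, Matrix (Fin (Nat.rec s (fun j _ => b j) i : ℕ)) (Fin (b i)) R),
      (∀ i j l, A i j l ∈ V) ∧ Function.Exact (A 0).mulVec A0.mulVec ∧
      ∀ i, Function.Exact (A (i + 1)).mulVec (A i).mulVec := by
  let T := Σ p : ℕ × ℕ, {A : Matrix (Fin p.1) (Fin p.2) R // GoodM V A}
  have hs : ∀ t : T, ∃ (s' : ℕ) (B : Matrix (Fin t.1.2) (Fin s') R),
      GoodM V B ∧ Function.Exact B.mulVec t.2.1.mulVec := fun t => step h t.2.1 t.2.2
  choose f g hg1 hg2 using hs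
  let nxt : T → T := fun t => ⟨(t.1.2, f t), g t, hg1 t⟩
  let sq : ℕ → T := fun i => Nat.rec ⟨(k, s), A0, hA⟩ (fun _ t => nxt t) i
  refine ⟨fun i => f (sq i), fun i => Nat.rec (motive := fun i =>
    Matrix (Fin (Nat.rec s (fun j _ => f (sq j)) i : ℕ)) (Fin (f (sq i))) R)
      (g (sq 0)) (fun j _ => g (sq (j + 1))) i, ?_, hg2 (sq 0), ?_⟩
  · intro i
    cases i with
    | zero => exact (hg1 (sq 0)).1
    | succ i => exact (hg1 (sq (i + 1))).1
  · intro i
    cases i with
    | zero => exact hg2 (sq 1)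
    | succ i => exact hg2 (sq (i + 2))

theorem linear_resolution {V W : Submodule K R} (h : Short V W) (T : Set R)
    (hT : ∀ r ∈ T, r ∈ V) :
    ∃ (b : ℕ → ℕ) (g : Fin (b 0) → R) (A : ∀ i, Matrix (Fin (b i)) (Fin (b (i + 1))) R),
    (∀ j, g j ∈ V) ∧ (∀ i j k, A i j k ∈ V) ∧ Ideal.span (Set.range g) = Ideal.span T ∧
    Function.Exact (A 0).mulVec (fun v => g ⬝ᵥ v) ∧
    ∀ i, Function.Exact (A (i + 1)).mulVec (A i).mulVec := by
  classical
  let U : Submodule K R := Submodule.span K T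
  have hU : U ≤ V := Submodule.span_le.mpr hT
  have : FiniteDimensional K V := Module.Finite.iff_fg.mpr h.fg
  have : FiniteDimensional K U := Submodule.finiteDimensional_of_le hU
  let bs := Module.finBasis K U
  let g : Fin (Module.finrank K U) → R := fun j => bs j
  have hg : ∀ j, g j ∈ V := fun j => hU (bs j).2
  have hli : LinearIndependent K g := bs.linearIndependent.map' U.subtype (by simp)
  have hspan : Ideal.span (Set.range g) = Ideal.span T := by
    apply le_antisymm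
    · rw [Ideal.span_le]
      rintro _ ⟨j, rfl⟩
      exact Submodule.span_le_restrictScalars K R T (bs j).2
    · rw [Ideal.span_le]
      intro r hr
      have h1 := congrArg Subtype.val (bs.sum_repr ⟨r, Submodule.subset_span hr⟩)
      simp only [Submodule.coe_sum, Submodule.coe_smul] at h1
      rw [← h1]
      refine Ideal.sum_mem _ (fun j _ => ?_)
      rw [Algebra.smul_def]
      exact Ideal.mul_mem_left _ _ (Ideal.subset_span ⟨j, rfl⟩)
  have hgood : GoodM V (Matrix.of (fun (_ : Fin 1) j => g j)) := by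
    refine ⟨fun _ j => hg j, fun c hc => ?_, fun j => j.val, Fin.val_injective, fun j => ?_⟩
    · funext j
      refine Fintype.linearIndependent_iff.mp hli c ?_ j
      have := congrFun hc 0
      simpa [mulVec, dotProduct, cv, Algebra.smul_def, mul_comm] using this
    · refine ⟨g j, hg j, fun z hz hxz => ⟨Pi.single j z, mem_syz.mpr ⟨fun t' => ?_, ?_⟩,
        Pi.single_eq_same _ _, fun i hi => Pi.single_eq_of_ne (by rintro rfl; omega) _⟩⟩
      · by_cases h3 : t' = j
        · subst h3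
          rwa [Pi.single_eq_same]
        · rw [Pi.single_eq_of_ne h3]
          exact zero_mem _
      · funext i
        simpa using hxz
  obtain ⟨b, A, hA1, hA2, hA3⟩ := resolution h _ hgood
  refine ⟨fun i => Nat.rec (Module.finrank K U) (fun j _ => b j) i, g, A, hg, hA1, hspan,
    fun v => ?_, hA3⟩
  rw [← hA2 v]
  constructor
  · intro h1; funext i; exact h1
  · intro h1; exact congrFun h1 0

end Pool.Agent.Lib.MP_8dd27d_al.Closed
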