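import Pool.Agent.Lib.MP_8dd27d_al.Closed.Model

set_option autoImplicit false

namespace Pool.Agent.Lib.MP_8dd27d_al.Closed

open Finset Filter

variable {K : Type*} [Field K] {sz : Fin 6 → ℕ}

section transfer

variable {T K' : Type*} [Field K'] {U : Ultrafilter T} {π : (T → K) →+* K'}

theorem pi_mul (a : T → Sym2 (LL sz) × JJ sz → K) (x y : T → LL sz → K) (j : JJ sz) :
    mul (fun ω => π (fun t => a t ω)) (fun l => π (fun t => x t l)) (fun l => π (fun t => y t l)) j
      = π (fun t => mul (a t) (x t) (y t) j) := by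
  have h1 : (fun t => mul (a t) (x t) (y t) j) =
      ∑ l, ∑ l', (fun t => x t l) * (fun t => y t l') * (fun t => ten (a t) l l' j) := by
    funext t
    simp only [mul, Finset.sum_apply, Pi.mul_apply]
  rw [h1, map_sum]
  refine sum_congr rfl (fun l _ => ?_)
  rw [map_sum]
  refine sum_congr rfl (fun l' _ => ?_)
  rw [map_mul, map_mul]
  congr 1
  unfold ten
  split_ifs
  · exact (map_one π).symm
  · exact (map_zero π).symm
  · rfl
  · exact (map_zero π).symm

theorem pi_ne (h0 : ∀ f, π f = 0 ↔ ∀ᶠ t in U, f t = 0) {L : Type*} [Finite L] (x : T → L → K)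
    (hx : ∀ᶠ t in U, x t ≠ 0) : (fun l => π (fun t => x t l)) ≠ 0 := by
  intro h
  have h1 : ∀ᶠ t in U, ∀ l, x t l = 0 := eventually_all.mpr (fun l => (h0 _).mp (congrFun h l))
  obtain ⟨t, h2, h3⟩ := (hx.and h1).exists
  exact h2 (funext h3)

theorem nz_transfer (h0 : ∀ f, π f = 0 ↔ ∀ᶠ t in U, f t = 0) (a : T → Sym2 (LL sz) × JJ sz → K)
    {b1 b2 : Fin 6} {PJ : Fin 6 → Prop} (h : NZ (fun ω => π (fun t => a t ω)) b1 b2 PJ) :
    ∀ᶠ t in U, NZ (a t) b1 b2 PJ := by
  by_contra hc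
  rw [← Ultrafilter.eventually_not] at hc
  have h1 : ∀ t, ∃ x y : LL sz → K, ¬ NZ (a t) b1 b2 PJ → (∀ l, l.1 ≠ b1 → x l = 0) ∧ x ≠ 0 ∧
      (∀ l, l.1 ≠ b2 → y l = 0) ∧ y ≠ 0 ∧ ∀ j : JJ sz, PJ j.1 → mul (a t) x y j = 0 := by
    intro t
    by_cases h2 : NZ (a t) b1 b2 PJ
    · exact ⟨0, 0, fun h3 => absurd h2 h3⟩
    · unfold NZ at h2
      push Not at h2
      obtain ⟨x, y, h3⟩ := h2
      exact ⟨x, y, fun _ => h3⟩
  choose x y hxy using h1
  obtain ⟨j, hj1, hj2⟩ := h (fun l => π (fun t => x t l)) (fun l => π (fun t => y t l))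
    (fun l hl => (h0 _).mpr (hc.mono (fun t ht => (hxy t ht).1 l hl)))
    (pi_ne h0 x (hc.mono (fun t ht => (hxy t ht).2.1)))
    (fun l hl => (h0 _).mpr (hc.mono (fun t ht => (hxy t ht).2.2.1 l hl)))
    (pi_ne h0 y (hc.mono (fun t ht => (hxy t ht).2.2.2.1)))
  rw [pi_mul] at hj2
  exact hj2 ((h0 _).mpr (hc.mono (fun t ht => (hxy t ht).2.2.2.2 j hj1)))

theorem uk_transfer (h0 : ∀ f, π f = 0 ↔ ∀ᶠ t in U, f t = 0) (hs : Function.Surjective π)
    (a : T → Sym2 (LL sz) × JJ sz → K) (h : UK (fun ω => π (fun t => a t ω))) :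
    ∀ᶠ t in U, UK (a t) := by
  by_contra hc
  rw [← Ultrafilter.eventually_not] at hc
  have h1 : ∀ t, ∃ (x : LL sz → K) (q : JJ sz → K), ¬ UK (a t) → q ≠ 0 ∧
      ∀ z v, mul (a t) x z = 0 → ∑ j, q j * mul (a t) z v j = 0 := by
    intro t
    by_cases h2 : UK (a t)
    · exact ⟨0, 0, fun h3 => absurd h2 h3⟩
    · unfold UK at h2
      push Not at h2
      obtain ⟨x, q, h3⟩ := h2
      exact ⟨x, q, fun _ => h3⟩
  choose x q hxq using h1
  obtain ⟨z, v, h2, h3⟩ := h (fun l => π (fun t => x t l)) (fun j => π (fun t => q t j))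
    (pi_ne h0 q (hc.mono (fun t ht => (hxq t ht).1)))
  choose z' hz' using fun l => hs (z l)
  choose v' hv' using fun l => hs (v l)
  have h4 : z = fun l => π (fun t => z' l t) := funext fun l => (hz' l).symm
  have h5 : v = fun l => π (fun t => v' l t) := funext fun l => (hv' l).symm
  have h6 : ∀ᶠ t in U, ∀ j, mul (a t) (x t) (fun l => z' l t) j = 0 := by
    refine eventually_all.mpr (fun j => (h0 _).mp ?_)
    rw [← pi_mul a x (fun t l => z' l t) j, ← h4]
    exact congrFun h2 j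
  apply h3
  have h7 : ∀ j, π (fun t => q t j) * mul (fun ω => π (fun t => a t ω)) z v j =
      π (fun t => q t j * mul (a t) (fun l => z' l t) (fun l => v' l t) j) := by
    intro j
    rw [h4, h5, pi_mul a (fun t l => z' l t) (fun t l => v' l t) j, ← map_mul]
    rfl
  simp only [h7]
  rw [← map_sum, h0]
  refine (hc.and h6).mono (fun t ht => ?_)
  rw [Finset.sum_apply]
  exact (hxq t ht.1).2 _ _ (funext ht.2)

end transfer

/-- complements of hypersurfaces generate a filter -/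
def zar (K Ω : Type*) [Field K] : Filter (Ω → K) where
  sets := {A | ∃ f : MvPolynomial Ω K, f ≠ 0 ∧ ∀ t, MvPolynomial.eval t f ≠ 0 → t ∈ A}
  univ_sets := ⟨1, one_ne_zero, fun _ _ => trivial⟩
  sets_of_superset := by
    rintro A B ⟨f, hf, h⟩ hAB
    exact ⟨f, hf, fun t ht => hAB (h t ht)⟩
  inter_sets := by
    rintro A B ⟨f, hf, h⟩ ⟨g, hg, h'⟩
    refine ⟨f * g, mul_ne_zero hf hg, fun t ht => ?_⟩
    rw [map_mul] at ht
    exact ⟨h t (left_ne_zero_of_mul ht), h' t (right_ne_zero_of_mul ht)⟩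

theorem exists_good [Infinite K] {k h : ℕ} (hs : Sizes sz k h) :
    ∃ a : Sym2 (LL sz) × JJ sz → K, Good a := by
  let Ω := Sym2 (LL sz) × JJ sz
  have hne : (zar K Ω).NeBot := by
    refine ⟨fun h => ?_⟩
    obtain ⟨f, hf, h1⟩ : (∅ : Set (Ω → K)) ∈ zar K Ω := by rw [h]; exact mem_bot
    refine hf (MvPolynomial.funext (fun t => ?_))
    by_contra h2
    exact h1 t (by simpa using h2)
  let U : Ultrafilter (Ω → K) := Ultrafilter.of (zar K Ω)
  let π : ((Ω → K) → K) →+* Germ (U : Filter (Ω → K)) K := Germ.coeRingHom _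
  have h0 : ∀ f, π f = 0 ↔ ∀ᶠ t in U, f t = 0 := fun f => Germ.coe_eq (g := 0)
  have hsurj : Function.Surjective π := fun g => Germ.inductionOn g (fun f => ⟨f, rfl⟩)
  letI : Algebra K (Germ (U : Filter (Ω → K)) K) := (π.comp (Pi.constRingHom _ K)).toAlgebra
  have ha : AlgebraicIndependent K (fun ω : Ω => π (fun t => t ω)) := by
    rw [algebraicIndependent_iff]
    have h6 : ∀ f, MvPolynomial.aeval (fun ω : Ω => π (fun t => t ω)) f =
        π (fun t => MvPolynomial.eval t f) := by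
      intro f
      induction f using MvPolynomial.induction_on with
      | C c => simp only [MvPolynomial.aeval_C, MvPolynomial.eval_C]; rfl
      | add p q hp hq => rw [map_add, hp, hq, ← map_add]; simp only [map_add]; rfl
      | mul_X p i hp =>
        rw [map_mul, hp, MvPolynomial.aeval_X, ← map_mul]
        simp only [map_mul, MvPolynomial.eval_X]
        rfl
    intro f hf
    have h1 := h6 f
    by_contra h2
    have h3 : ∀ᶠ t in U, MvPolynomial.eval t f ≠ 0 :=
      Ultrafilter.of_le (zar K Ω) ⟨f, h2, fun t ht => ht⟩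
    obtain ⟨t, h4, h5⟩ := (h3.and ((h0 _).mp (h1 ▸ hf))).exists
    exact h4 h5
  obtain ⟨g1, g2, g3, g4⟩ := good_generic ha hs
  obtain ⟨t, h1, h2, h3, h4⟩ := ((uk_transfer h0 hsurj (fun t => t) g1).and
    ((nz_transfer h0 (fun t => t) g2).and ((nz_transfer h0 (fun t => t) g3).and
      (nz_transfer h0 (fun t => t) g4)))).exists
  exact ⟨t, h1, h2, h3, h4⟩

end Pool.Agent.Lib.MP_8dd27d_al.Closed
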