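import Pool.Agent.Lib.MP_8dd27d_al.Defs
import Pool.Agent.Lib.MP_8dd27d_al.Closed.Res
import Pool.Agent.Lib.MP_8dd27d_al.Closed.NotGQ
import Pool.Agent.Lib.MP_8dd27d_al.Closed.Spec

set_option autoImplicit false

universe u

namespace Pool.Agent.Lib.MP_8dd27d_al.Closed

open MvPolynomial

variable {K : Type u} [Field K] {sz : Fin 6 → ℕ}

/-- the model algebra `K + V + W` -/
@[ext] structure QQ (a : Sym2 (LL sz) × JJ sz → K) where
  c : K
  v : LL sz → K
  w : JJ sz → K

namespace QQ
variable {a : Sym2 (LL sz) × JJ sz → K}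

instance : Zero (QQ a) := ⟨⟨0, 0, 0⟩⟩
instance : One (QQ a) := ⟨⟨1, 0, 0⟩⟩
instance : Add (QQ a) := ⟨fun p q => ⟨p.c + q.c, p.v + q.v, p.w + q.w⟩⟩
instance : Neg (QQ a) := ⟨fun p => ⟨-p.c, -p.v, -p.w⟩⟩
instance : Mul (QQ a) := ⟨fun p q => ⟨p.c * q.c, p.c • q.v + q.c • p.v,
  p.c • q.w + q.c • p.w + mulB a p.v q.v⟩⟩

theorem zero_def : (0 : QQ a) = ⟨0, 0, 0⟩ := rfl
theorem one_def : (1 : QQ a) = ⟨1, 0, 0⟩ := rfl
theorem add_def (p q : QQ a) : p + q = ⟨p.c + q.c, p.v + q.v, p.w + q.w⟩ := rfl
theorem neg_def (p : QQ a) : -p = ⟨-p.c, -p.v, -p.w⟩ := rfl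
theorem mul_def (p q : QQ a) : p * q = ⟨p.c * q.c, p.c • q.v + q.c • p.v,
  p.c • q.w + q.c • p.w + mulB a p.v q.v⟩ := rfl

theorem ext' {p q : QQ a} (h1 : p.c = q.c) (h2 : p.v = q.v) (h3 : p.w = q.w) : p = q :=
  QQ.ext h1 h2 h3

instance : CommRing (QQ a) where
  add_assoc p q r := by apply ext' <;> simp only [add_def, add_assoc]
  zero_add p := by apply ext' <;> simp only [add_def, zero_def, zero_add]
  add_zero p := by apply ext' <;> simp only [add_def, zero_def, add_zero]
  add_comm p q := by apply ext' <;> simp only [add_def, add_comm]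
  neg_add_cancel p := by apply ext' <;> simp only [add_def, zero_def, neg_def, neg_add_cancel]
  mul_assoc p q r := by
    apply ext' <;> simp only [mul_def, map_add, map_smul, LinearMap.add_apply, LinearMap.smul_apply]
    · ring
    · module
    · module
  one_mul p := by apply ext' <;> simp [mul_def, one_def]
  mul_one p := by apply ext' <;> simp [mul_def, one_def]
  zero_mul p := by apply ext' <;> simp [mul_def, zero_def]
  mul_zero p := by apply ext' <;> simp [mul_def, zero_def]
  mul_comm p q := by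
    apply ext' <;> simp only [mul_def]
    · ring
    · module
    · rw [mulB_apply, mulB_apply, mul_comm' a p.v]
      module
  left_distrib p q r := by
    apply ext' <;> simp only [mul_def, add_def, map_add, LinearMap.add_apply]
    · ring
    · module
    · module
  right_distrib p q r := by
    apply ext' <;> simp only [mul_def, add_def, map_add, LinearMap.add_apply]
    · ring
    · module
    · module
  nsmul := nsmulRec
  zsmul := zsmulRec

def emb (a : Sym2 (LL sz) × JJ sz → K) : K →+* QQ a where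
  toFun t := ⟨t, 0, 0⟩
  map_one' := rfl
  map_zero' := rfl
  map_mul' s t := by apply ext' <;> simp [mul_def]
  map_add' s t := by apply ext' <;> simp [add_def]

noncomputable instance : Algebra K (QQ a) := (emb a).toAlgebra

theorem alg_def (t : K) : algebraMap K (QQ a) t = ⟨t, 0, 0⟩ := rfl

theorem smul_def' (t : K) (p : QQ a) : t • p = ⟨t * p.c, t • p.v, t • p.w⟩ := by
  rw [Algebra.smul_def, alg_def, mul_def]
  simp

noncomputable def pc (a : Sym2 (LL sz) × JJ sz → K) : QQ a →ₗ[K] K where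
  toFun p := p.c
  map_add' _ _ := rfl
  map_smul' t p := by rw [smul_def']; rfl

noncomputable def pv (a : Sym2 (LL sz) × JJ sz → K) : QQ a →ₗ[K] (LL sz → K) where
  toFun p := p.v
  map_add' _ _ := rfl
  map_smul' t p := by rw [smul_def']; rfl

noncomputable def pw (a : Sym2 (LL sz) × JJ sz → K) : QQ a →ₗ[K] (JJ sz → K) where
  toFun p := p.w
  map_add' _ _ := rfl
  map_smul' t p := by rw [smul_def']; rfl

noncomputable def iv (a : Sym2 (LL sz) × JJ sz → K) : (LL sz → K) →ₗ[K] QQ a where
  toFun x := ⟨0, x, 0⟩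
  map_add' _ _ := by simp [add_def]
  map_smul' t p := by simp [smul_def']

noncomputable def iw (a : Sym2 (LL sz) × JJ sz → K) : (JJ sz → K) →ₗ[K] QQ a where
  toFun x := ⟨0, 0, x⟩
  map_add' _ _ := by simp [add_def]
  map_smul' t p := by simp [smul_def']

theorem iv_mul (x y : LL sz → K) : iv a x * iv a y = iw a (mul a x y) := by
  show (⟨0, x, 0⟩ : QQ a) * ⟨0, y, 0⟩ = ⟨0, 0, _⟩
  simp [mul_def, mulB_apply]

/-- graded pieces -/
noncomputable def gr (a : Sym2 (LL sz) × JJ sz → K) (d : ℕ) : Submodule K (QQ a) where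
  carrier := {p | (d ≠ 0 → p.c = 0) ∧ (d ≠ 1 → p.v = 0) ∧ (d ≠ 2 → p.w = 0)}
  add_mem' := by
    rintro p q ⟨h1, h2, h3⟩ ⟨h4, h5, h6⟩
    refine ⟨fun h => ?_, fun h => ?_, fun h => ?_⟩ <;> simp [add_def, *]
  zero_mem' := ⟨fun _ => rfl, fun _ => rfl, fun _ => rfl⟩
  smul_mem' := by
    rintro t p ⟨h1, h2, h3⟩
    refine ⟨fun h => ?_, fun h => ?_, fun h => ?_⟩ <;> simp [smul_def', *]

theorem gr_mul {d : ℕ} {p q : QQ a} (hp : p ∈ gr a d) (hq : q ∈ gr a 1) :
    p * q ∈ gr a (d + 1) := by
  obtain ⟨h1, h2, h3⟩ := hp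
  have h4 := hq.1 (by omega)
  have h5 := hq.2.2 (by omega)
  refine ⟨fun _ => ?_, fun h => ?_, fun h => ?_⟩
  · simp [mul_def, h4]
  · simp [mul_def, h4, h1 (by omega)]
  · simp [mul_def, h4, h5, h2 (by omega)]

theorem aeval_gr {σ : Type*} (x : σ → LL sz → K) {d : ℕ} {p : MvPolynomial σ K}
    (hp : p.IsHomogeneous d) : aeval (fun i => iv a (x i)) p ∈ gr a d := by
  have h1 : (homogeneousSubmodule σ K 1).map (aeval (fun i => iv a (x i))).toLinearMap ≤
      gr a 1 := by
    rw [homogeneousSubmodule_one_eq_span_X, Submodule.map_span, Submodule.span_le]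
    rintro _ ⟨_, ⟨i, rfl⟩, rfl⟩
    rw [AlgHom.toLinearMap_apply, aeval_X]
    exact ⟨fun _ => rfl, fun h => absurd rfl h, fun _ => rfl⟩
  have h2 : ∀ d, ((homogeneousSubmodule σ K 1).map
      (aeval (fun i => iv a (x i))).toLinearMap) ^ d ≤ gr a d := by
    intro d
    induction d with
    | zero =>
      rw [pow_zero, Submodule.one_le]
      exact ⟨fun h => absurd rfl h, fun _ => rfl, fun _ => rfl⟩
    | succ d ih =>
      rw [pow_succ, Submodule.mul_le]
      exact fun m hm n hn => gr_mul (ih hm) (h1 hn)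
  refine h2 d ?_
  rw [← Submodule.map_pow, homogeneousSubmodule_one_pow]
  exact ⟨p, hp, rfl⟩

theorem comp_eq {σ M : Type*} [AddCommGroup M] [Module K M] (x : σ → LL sz → K)
    (f : QQ a →ₗ[K] M) (d0 : ℕ) (hf : ∀ d, d ≠ d0 → ∀ q ∈ gr a d, f q = 0)
    (p : MvPolynomial σ K) : f (aeval (fun i => iv a (x i)) p) =
      f (aeval (fun i => iv a (x i)) (homogeneousComponent d0 p)) := by
  conv_lhs => rw [← sum_homogeneousComponent p, map_sum, map_sum]
  refine Finset.sum_eq_single d0
    (fun d _ hd => hf d hd _ (aeval_gr x (homogeneousComponent_isHomogeneous d p))) (fun h => ?_)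
  rw [homogeneousComponent_eq_zero d0 p (by simpa using h), map_zero, map_zero]

theorem comp_c {σ : Type*} (x : σ → LL sz → K) (p : MvPolynomial σ K) :
    (aeval (fun i => iv a (x i)) p).c = (aeval (fun i => iv a (x i)) (homogeneousComponent 0 p)).c :=
  comp_eq x (pc a) 0 (fun _ hd _ hq => hq.1 hd) p

theorem comp_v {σ : Type*} (x : σ → LL sz → K) (p : MvPolynomial σ K) :
    (aeval (fun i => iv a (x i)) p).v = (aeval (fun i => iv a (x i)) (homogeneousComponent 1 p)).v :=
  comp_eq x (pv a) 1 (fun _ hd _ hq => hq.2.1 hd) p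

theorem comp_w {σ : Type*} (x : σ → LL sz → K) (p : MvPolynomial σ K) :
    (aeval (fun i => iv a (x i)) p).w = (aeval (fun i => iv a (x i)) (homogeneousComponent 2 p)).w :=
  comp_eq x (pw a) 2 (fun _ hd _ hq => hq.2.2 hd) p

end QQ

open QQ

variable {n : ℕ} (a : Sym2 (LL sz) × JJ sz → K) (e : Fin n ≃ LL sz)

noncomputable def phi : MvPolynomial (Fin n) K →ₐ[K] QQ a :=
  aeval (fun i => iv a (Pi.single (e i) 1))

noncomputable def II : Ideal (MvPolynomial (Fin n) K) := RingHom.ker (phi a e)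

theorem mem_II (p : MvPolynomial (Fin n) K) : p ∈ II a e ↔ phi a e p = 0 := Iff.rfl

theorem II_homog (p : MvPolynomial (Fin n) K) (hp : p ∈ II a e) (d : ℕ) :
    homogeneousComponent d p ∈ II a e := by
  rw [mem_II] at hp ⊢
  obtain ⟨h1, h2, h3⟩ := aeval_gr (a := a) (fun i => Pi.single (e i) 1)
    (homogeneousComponent_isHomogeneous d p)
  refine ext' ?_ ?_ ?_
  · by_cases h : d = 0
    · subst h
      exact (comp_c _ p).symm.trans (congrArg QQ.c hp)
    · exact h1 h
  · by_cases h : d = 1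
    · subst h
      exact (comp_v _ p).symm.trans (congrArg QQ.v hp)
    · exact h2 h
  · by_cases h : d = 2
    · subst h
      exact (comp_w _ p).symm.trans (congrArg QQ.w hp)
    · exact h3 h

theorem phi_lin (c : Fin n → K) : phi a e (∑ i, c i • X i) = iv a (fun l => c (e.symm l)) := by
  simp only [phi, map_sum, map_smul, aeval_X]
  simp only [← map_smul, ← map_sum]
  congr 1
  funext l
  rw [Finset.sum_apply, Finset.sum_eq_single (e.symm l)]
  · simp
  · intro i _ hi
    rw [Pi.smul_apply, Pi.single_eq_of_ne (fun h => hi (by rw [h]; simp)), smul_zero]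
  · simp

theorem lin_form {p : MvPolynomial (Fin n) K} (hp : p.IsHomogeneous 1) :
    ∃ c : Fin n → K, ∑ i, c i • X i = p := by
  have h1 : p ∈ Submodule.span K (Set.range (X : Fin n → MvPolynomial (Fin n) K)) := by
    rw [← homogeneousSubmodule_one_eq_span_X]; exact hp
  exact (Submodule.mem_span_range_iff_exists_fun K).mp h1

theorem II_le : II a e ≤ Ideal.span (Set.range X) ^ 2 := by
  intro p hp
  refine (mem_pow_idealOfVars_iff' 2 p).mpr (fun x hx => ?_)
  have h0 : homogeneousComponent x.degree p = 0 := by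
    have h1 := II_homog a e p hp x.degree
    rw [mem_II] at h1
    have h2 : x.degree = 0 ∨ x.degree = 1 := by omega
    rcases h2 with h2 | h2
    · rw [h2, homogeneousComponent_zero] at h1 ⊢
      have h3 : coeff 0 p = 0 := by
        rw [phi, aeval_C] at h1
        exact congrArg QQ.c h1
      rw [h3, map_zero]
    · rw [h2] at h1 ⊢
      obtain ⟨c, hc⟩ := lin_form (homogeneousComponent_isHomogeneous 1 p)
      rw [← hc, phi_lin] at h1
      rw [← hc]
      refine Finset.sum_eq_zero (fun i _ => ?_)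
      have h3 : c (e.symm (e i)) = 0 := congrFun (congrArg QQ.v h1) (e i)
      rw [Equiv.symm_apply_apply] at h3
      rw [h3, zero_smul]
  have h1 := coeff_homogeneousComponent x.degree p x
  rw [if_pos rfl, h0] at h1
  exact h1.symm

noncomputable def hpart (d : ℕ) : Submodule K (MvPolynomial (Fin n) K ⧸ II a e) :=
  (homogeneousSubmodule (Fin n) K d).map (Ideal.Quotient.mkₐ K (II a e)).toLinearMap

theorem short (hg : UK a) : Short (hpart a e 1) (hpart a e 2) := by
  let ψ : (MvPolynomial (Fin n) K ⧸ II a e) →ₐ[K] QQ a := Ideal.kerLiftAlg (phi a e)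
  have hψ : Function.Injective ψ := Ideal.kerLiftAlg_injective _
  have hmk : ∀ p, ψ (Ideal.Quotient.mkₐ K (II a e) p) = phi a e p := fun p => rfl
  have hgr : ∀ d, ∀ r ∈ hpart a e d, ψ r ∈ gr a d := by
    rintro d _ ⟨p, hp, rfl⟩
    exact aeval_gr _ hp
  refine ⟨?_, ?_, ?_, ?_, ?_, ?_⟩
  · intro r
    obtain ⟨p, rfl⟩ := Ideal.Quotient.mkₐ_surjective K (II a e) r
    refine ⟨coeff 0 p, _, ⟨_, homogeneousComponent_mem 1 p, rfl⟩, _,
      ⟨_, homogeneousComponent_mem 2 p, rfl⟩, hψ ?_⟩
    rw [map_add, map_add, AlgHom.commutes, AlgHom.toLinearMap_apply, AlgHom.toLinearMap_apply,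
      hmk, hmk, hmk]
    obtain ⟨h1, -, h2⟩ := aeval_gr (a := a) (fun i => Pi.single (e i) 1)
      (homogeneousComponent_isHomogeneous 1 p)
    obtain ⟨h3, h4, -⟩ := aeval_gr (a := a) (fun i => Pi.single (e i) 1)
      (homogeneousComponent_isHomogeneous 2 p)
    refine ext' ?_ ?_ ?_ <;> simp only [add_def, alg_def, phi]
    · rw [h1 (by omega), h3 (by omega), comp_c, homogeneousComponent_zero, aeval_C, alg_def,
        add_zero, add_zero]
    · rw [h4 (by omega), zero_add, add_zero, ← comp_v]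
    · rw [h2 (by omega), zero_add, zero_add, ← comp_w]
  · intro v hv w hw h
    have h1 := congrArg ψ h
    rw [map_add, map_zero] at h1
    obtain ⟨h2, -, h3⟩ := hgr 1 v hv
    obtain ⟨h4, h5, -⟩ := hgr 2 w hw
    have h6 : ψ v = 0 := by
      refine ext' (h2 (by omega)) ?_ (h3 (by omega))
      have h7 := congrArg QQ.v h1
      simp only [add_def, h5 (by omega), add_zero] at h7
      exact h7
    rw [h6, zero_add] at h1
    exact ⟨hψ (by rw [h6, map_zero]), hψ (by rw [h1, map_zero])⟩
  · rintro _ ⟨p, hp, rfl⟩ _ ⟨q, hq, rfl⟩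
    exact ⟨p * q, IsHomogeneous.mul hp hq, map_mul (Ideal.Quotient.mkₐ K (II a e)) p q⟩
  · intro v hv w hw
    obtain ⟨h1, h2, h3⟩ := gr_mul (hgr 2 w hw) (hgr 1 v hv)
    refine hψ ?_
    rw [map_zero, mul_comm, map_mul]
    exact ext' (h1 (by omega)) (h2 (by omega)) (h3 (by omega))
  · exact (homogeneousSubmodule_fg (Fin n) K 1).map _
  · intro x hx w hw
    have hlin : ∀ y : LL sz → K, ∃ r ∈ hpart a e 1, ψ r = iv a y := by
      intro y
      refine ⟨_, ⟨∑ i, y (e i) • X i, ?_, rfl⟩, ?_⟩
      · exact Submodule.sum_mem _ (fun i _ => Submodule.smul_mem _ _ (isHomogeneous_X K i))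
      · rw [AlgHom.toLinearMap_apply, hmk, phi_lin]
        simp
    have hx' : ψ x = iv a (ψ x).v :=
      ext' ((hgr 1 x hx).1 (by omega)) rfl ((hgr 1 x hx).2.2 (by omega))
    have hw' : ψ w = iw a (ψ w).w :=
      ext' ((hgr 2 w hw).1 (by omega)) ((hgr 2 w hw).2.1 (by omega)) rfl
    set N := Submodule.span K
      {u | ∃ z ∈ hpart a e 1, ∃ v ∈ hpart a e 1, x * z = 0 ∧ u = v * z} with hN
    have h1 : (N.map ψ.toLinearMap).comap (iw a) = ⊤ := by
      by_contra h
      obtain ⟨f, hf0, hf1⟩ := Submodule.exists_le_ker_of_lt_top _ (lt_top_iff_ne_top.mpr h)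
      have h2 : ∀ y : JJ sz → K, f y = ∑ j, f (Pi.single j 1) * y j := by
        intro y
        conv_lhs => rw [pi_eq_sum_univ' y, map_sum]
        exact Finset.sum_congr rfl (fun j _ => by rw [map_smul, smul_eq_mul, mul_comm])
      obtain ⟨z, v, h3, h4⟩ := hg (ψ x).v (fun j => f (Pi.single j 1)) (by
        intro h3
        refine hf0 (LinearMap.ext fun y => ?_)
        rw [h2]
        exact Finset.sum_eq_zero (fun j _ => by rw [congrFun h3 j, Pi.zero_apply, zero_mul]))
      obtain ⟨z', hz1, hz2⟩ := hlin z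
      obtain ⟨v', hv1, hv2⟩ := hlin v
      refine h4 ((h2 _).symm.trans (hf1 ⟨v' * z', Submodule.subset_span
        ⟨z', hz1, v', hv1, hψ ?_, rfl⟩, ?_⟩))
      · rw [map_mul, hx', hz2, iv_mul, h3, map_zero, map_zero]
      · rw [AlgHom.toLinearMap_apply, map_mul, hv2, hz2, iv_mul, mul_comm']
    have h2 : (ψ w).w ∈ (N.map ψ.toLinearMap).comap (iw a) := h1 ▸ Submodule.mem_top
    obtain ⟨m, hm1, hm2⟩ := h2
    rwa [← hψ (hm2.trans hw'.symm)]

theorem II_uk (hg : UK a) : UniversallyKoszul (II a e) := by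
  intro T hT
  obtain ⟨b, g, A, h1, h2, h3, h4, h5⟩ := linear_resolution (short a e hg) T hT
  exact ⟨b, g, A, h1, h2, h3, h4, h5⟩

theorem deg_two {σ : Type*} {d : σ →₀ ℕ} (h : d.degree = 2) :
    ∃ i k, d = Finsupp.single i 1 + Finsupp.single k 1 := by
  obtain ⟨g, hg, hg1⟩ := Finsupp.exists_le_degree_eq d 1 (by omega)
  obtain ⟨c, rfl⟩ := le_iff_exists_add.mp hg
  rw [map_add, hg1] at h
  obtain ⟨i, hi⟩ : g ∈ Set.range (fun a : σ => Finsupp.single a 1) := by
    rw [Finsupp.range_single_one]; exact hg1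
  obtain ⟨k, hk⟩ : c ∈ Set.range (fun a : σ => Finsupp.single a 1) := by
    rw [Finsupp.range_single_one]; show c.degree = 1; omega
  exact ⟨i, k, by rw [← hi, ← hk]⟩

theorem two_of_three {σ : Type*} {d : σ →₀ ℕ} (h : d.degree = 2) {i k m : σ}
    (hd : d ≤ Finsupp.single i 1 + Finsupp.single k 1 + Finsupp.single m 1) :
    d = Finsupp.single i 1 + Finsupp.single k 1 ∨ d = Finsupp.single i 1 + Finsupp.single m 1 ∨
      d = Finsupp.single k 1 + Finsupp.single m 1 := by
  classical
  obtain ⟨c, hc⟩ := le_iff_exists_add.mp hd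
  have h1 := congrArg Finsupp.degree hc
  simp only [map_add, Finsupp.degree_single, h] at h1
  obtain ⟨t, ht⟩ : c ∈ Set.range (fun a : σ => Finsupp.single a 1) := by
    rw [Finsupp.range_single_one]; show c.degree = 1; omega
  subst ht
  by_cases h2 : m = t
  · subst h2
    exact Or.inl (add_right_cancel hc).symm
  · by_cases h3 : k = t
    · subst h3
      rw [add_right_comm] at hc
      exact Or.inr (Or.inl (add_right_cancel hc).symm)
    · by_cases h4 : i = t
      · subst h4
        rw [add_assoc, add_comm] at hc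
        exact Or.inr (Or.inr (add_right_cancel hc).symm)
      · have h5 := DFunLike.congr_fun hc t
        simp [h2, h3, h4] at h5

theorem II_not_gq [CharP K 2] (hg : Good a) (h5 : 0 < sz 5) : ¬ GQuadratic (II a e) := by
  classical
  rintro ⟨M, hM, m, G, hG1, hG2⟩
  let v : Fin n → LL sz → K := fun i l => M i (e.symm l)
  have hmem : ∀ f, f ∈ changeCoords M (II a e) ↔ aeval (fun i => iv a (v i)) f = 0 := by
    intro f
    have h1 : (phi a e).comp (aeval (fun i => ∑ j, C (M i j) * X j) :
        MvPolynomial (Fin n) K →ₐ[K] MvPolynomial (Fin n) K) = aeval (fun i => iv a (v i)) := by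
      refine algHom_ext (fun i => ?_)
      rw [AlgHom.comp_apply, aeval_X, aeval_X, ← phi_lin]
      simp only [smul_eq_C_mul]
    rw [← h1]
    rfl
  have hmon : ∀ i k (c : K), aeval (fun i => iv a (v i))
      (monomial (Finsupp.single i 1 + Finsupp.single k 1) c) = c • iw a (mul a (v i) (v k)) := by
    intro i k c
    rw [monomial_add_single, ← C_mul_X_eq_monomial, map_mul, map_mul, pow_one, aeval_X,
      aeval_X, aeval_C, mul_assoc, iv_mul, Algebra.smul_def]
  refine no_order hg h5 (fun i => m.toSyn (Finsupp.single i 1)) v ?_ ?_ ?_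
  · intro i hi
    apply hM.ne_zero
    apply Matrix.det_eq_zero_of_row_eq_zero i
    intro j
    simpa [v] using congrFun hi (e j)
  · rw [eq_top_iff]
    intro y _
    obtain ⟨c, hc⟩ := Matrix.vecMul_surjective_iff_isUnit.mpr
      ((Matrix.isUnit_iff_isUnit_det M).mpr hM) (fun j => y (e j))
    refine (Submodule.mem_span_range_iff_exists_fun K).mpr ⟨c, funext fun l => ?_⟩
    have h1 := congrFun hc (e.symm l)
    simpa [v, Matrix.vecMul, dotProduct] using h1
  · intro i k t
    have hns : ∀ g ∈ G, ∀ i k, m.degree g = Finsupp.single i 1 + Finsupp.single k 1 →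
        NS a (fun i => m.toSyn (Finsupp.single i 1)) v i k := by
      intro g hg i k hdeg j hj
      obtain ⟨hg1, hg2, hg3⟩ := hG1 g hg
      rw [hmem] at hg1
      have h1 := congrFun (congrArg (pw a) hg1) j
      rw [g.as_sum, map_sum, map_sum, Finset.sum_apply, Finset.sum_eq_single (m.degree g)] at h1
      · rw [hdeg, hmon, map_smul] at h1
        refine (mul_eq_zero.mp h1).resolve_left ?_
        rw [← hdeg]
        exact m.coeff_degree_ne_zero_iff.mpr hg2
      · intro d hd hne
        have h2 : d.degree = 2 := by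
          by_contra h2
          exact mem_support_iff.mp hd (hg3.coeff_eq_zero h2)
        obtain ⟨i', k', rfl⟩ := deg_two h2
        rw [hmon, map_smul]
        have h3 : mul a (v i') (v k') j = 0 := by
          refine hj i' k' ?_
          rw [← map_add, ← map_add, ← hdeg]
          exact lt_of_le_of_ne (m.le_degree hd) (fun h => hne (m.toSyn.injective h))
        show _ * mul a (v i') (v k') j = 0
        rw [h3, mul_zero]
      · intro h
        exact absurd (m.degree_mem_support hg2) h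
    let s3 := Finsupp.single i 1 + Finsupp.single k 1 + Finsupp.single t 1
    have h1 : (monomial s3 1 : MvPolynomial (Fin n) K) ∈ changeCoords M (II a e) := by
      rw [hmem]
      obtain ⟨h1, h2, h3⟩ := aeval_gr (a := a) v
        (isHomogeneous_monomial (d := s3) (1 : K) (n := 3) (by simp [s3]))
      exact ext' (h1 (by omega)) (h2 (by omega)) (h3 (by omega))
    obtain ⟨g, hg, hdeg⟩ := hG2 _ h1 (by simp)
    rw [m.degree_monomial, if_neg one_ne_zero] at hdeg
    obtain ⟨-, hg2, hg3⟩ := hG1 g hg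
    have h2 : (m.degree g).degree = 2 := by
      by_contra h2
      exact m.coeff_degree_ne_zero_iff.mpr hg2 (hg3.coeff_eq_zero h2)
    rcases two_of_three h2 hdeg with h | h | h
    · exact Or.inl (hns g hg _ _ h)
    · exact Or.inr (Or.inl (hns g hg _ _ h))
    · exact Or.inr (Or.inr (hns g hg _ _ h))

theorem sizes : Sizes ![3002, 5004, 2001, 2002, 1000, 12009] 160 160 := by
  constructor <;> simp

end Pool.Agent.Lib.MP_8dd27d_al.Closed
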